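import Mathlib

set_option autoImplicit false

namespace Pool.Agent.Lib.MP_325c33_an

open Set Topology

/-- Two-sided sign sequences. -/
def IsSign (b : ℤ → ℂ) : Prop := ∀ n, b n = 1 ∨ b n = -1

/-- The sequence `(A_b - z) x`. -/
def op (b x : ℤ → ℂ) (z : ℂ) (n : ℤ) : ℂ := b (n - 1) * x (n - 1) + x (n + 1) - z * x n

/-- The set of `z` admitting a nonzero bounded solution of `A_b x = z x` for some `b`. -/
def Bset : Set ℂ := {z | ∃ b x : ℤ → ℂ, IsSign b ∧ (∃ C : ℝ, ∀ n, ‖x n‖ ≤ C) ∧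
  (∃ n, x n ≠ 0) ∧ ∀ n, op b x z n = 0}

/-- Approximate version. -/
def Zset : Set (ℂ × ℝ) := {p | ∃ b x : ℤ → ℂ, IsSign b ∧ (∀ n, ‖x n‖ ≤ 1) ∧ 1 / 2 ≤ ‖x 0‖ ∧
  ∀ n, ‖op b x p.1 n‖ ≤ p.2}

lemma norm_sign {b : ℤ → ℂ} (hb : IsSign b) (n : ℤ) : ‖b n‖ = 1 := by
  rcases hb n with h | h <;> simp [h]

lemma isClosed_Zset : IsClosed Zset := by
  let K : Set ((ℤ → ℂ) × (ℤ → ℂ)) :=
    (Set.pi univ fun _ => ({1, -1} : Set ℂ)) ×ˢ (Set.pi univ fun _ => Metric.closedBall (0 : ℂ) 1)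
  have hK : IsCompact K :=
    (isCompact_univ_pi fun _ => (Set.toFinite _).isCompact).prod
      (isCompact_univ_pi fun _ => isCompact_closedBall _ _)
  have : CompactSpace K := isCompact_iff_compactSpace.mp hK
  let F : Set ((ℂ × ℝ) × K) := {q | 1 / 2 ≤ ‖(q.2 : (ℤ → ℂ) × (ℤ → ℂ)).2 0‖ ∧
    ∀ n, ‖op (q.2 : (ℤ → ℂ) × (ℤ → ℂ)).1 (q.2 : (ℤ → ℂ) × (ℤ → ℂ)).2 q.1.1 n‖ ≤ q.1.2}
  have hF : IsClosed F := by
    have h1 : IsClosed {q : (ℂ × ℝ) × K | 1 / 2 ≤ ‖(q.2 : (ℤ → ℂ) × (ℤ → ℂ)).2 0‖} :=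
      isClosed_le continuous_const (by fun_prop)
    have h2 : ∀ n : ℤ, IsClosed {q : (ℂ × ℝ) × K |
        ‖op (q.2 : (ℤ → ℂ) × (ℤ → ℂ)).1 (q.2 : (ℤ → ℂ) × (ℤ → ℂ)).2 q.1.1 n‖ ≤ q.1.2} := by
      intro n
      refine isClosed_le ?_ (by fun_prop)
      unfold op
      fun_prop
    have h3 : F = {q : (ℂ × ℝ) × K | 1 / 2 ≤ ‖(q.2 : (ℤ → ℂ) × (ℤ → ℂ)).2 0‖} ∩ ⋂ n : ℤ,
        {q : (ℂ × ℝ) × K |
        ‖op (q.2 : (ℤ → ℂ) × (ℤ → ℂ)).1 (q.2 : (ℤ → ℂ) × (ℤ → ℂ)).2 q.1.1 n‖ ≤ q.1.2} := by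
      ext q
      simp [F]
    rw [h3]
    exact h1.inter (isClosed_iInter h2)
  have himg : Zset = Prod.fst '' F := by
    ext p
    constructor
    · rintro ⟨b, x, hb, hx, h0, hn⟩
      refine ⟨(p, ⟨(b, x), ?_⟩), ⟨h0, hn⟩, rfl⟩
      refine ⟨fun n _ => ?_, fun n _ => ?_⟩
      · rcases hb n with h | h <;> simp [h]
      · simpa using hx n
    · rintro ⟨⟨p', ⟨⟨b, x⟩, hK'⟩⟩, ⟨h0, hn⟩, rfl⟩
      refine ⟨b, x, fun n => ?_, fun n => ?_, h0, hn⟩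
      · have := hK'.1 n (mem_univ n)
        simpa using this
      · have := hK'.2 n (mem_univ n)
        simpa using this
  rw [himg]
  exact isClosedMap_fst_of_compactSpace _ hF

/-- Shift of a sequence. -/
lemma op_shift (b x : ℤ → ℂ) (z : ℂ) (m n : ℤ) :
    op (fun k => b (k + m)) (fun k => x (k + m)) z n = op b x z (n + m) := by
  simp only [op]
  congr 3 <;> ring_nf

lemma op_smul (b x : ℤ → ℂ) (z c : ℂ) (n : ℤ) :
    op b (fun k => c * x k) z n = c * op b x z n := by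
  simp only [op]
  ring

/-- From a bounded nonzero sequence produce an element of `Zset`. -/
lemma mem_Zset_of {b x : ℤ → ℂ} {z : ℂ} {ε : ℝ} (hb : IsSign b) {C : ℝ} (hC : ∀ n, ‖x n‖ ≤ C)
    {n₀ : ℤ} (hn₀ : x n₀ ≠ 0) (hop : ∀ n, ‖op b x z n‖ ≤ ε * ⨆ k, ‖x k‖) : (z, ε) ∈ Zset := by
  have hbdd : BddAbove (range fun k => ‖x k‖) := ⟨C, by rintro _ ⟨n, rfl⟩; exact hC n⟩
  set s := ⨆ k, ‖x k‖ with hs
  have hs0 : 0 < s := lt_of_lt_of_le (norm_pos_iff.mpr hn₀) (le_ciSup hbdd n₀)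
  obtain ⟨m, hm⟩ : ∃ m, s / 2 < ‖x m‖ := exists_lt_of_lt_ciSup (by linarith)
  refine ⟨fun k => b (k + m), fun k => (s : ℂ)⁻¹ * x (k + m), fun n => hb _, ?_, ?_, ?_⟩
  · intro n
    have h1 : ‖x (n + m)‖ ≤ s := le_ciSup hbdd (n + m)
    rw [norm_mul, norm_inv, Complex.norm_real, Real.norm_of_nonneg hs0.le, inv_mul_le_iff₀ hs0]
    linarith
  · rw [norm_mul, norm_inv, Complex.norm_real, Real.norm_of_nonneg hs0.le, zero_add,
      le_inv_mul_iff₀ hs0]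
    linarith
  · intro n
    rw [op_smul (fun k => b (k + m)) (fun k => x (k + m)), op_shift, norm_mul, norm_inv,
      Complex.norm_real, Real.norm_of_nonneg hs0.le, inv_mul_le_iff₀ hs0]
    have := hop (n + m)
    linarith

lemma mem_Bset_iff (z : ℂ) : z ∈ Bset ↔ (z, (0 : ℝ)) ∈ Zset := by
  constructor
  · rintro ⟨b, x, hb, ⟨C, hC⟩, ⟨n₀, hn₀⟩, hop⟩
    exact mem_Zset_of hb hC hn₀ (fun n => by rw [hop n]; simp)
  · rintro ⟨b, x, hb, hx, h0, hn⟩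
    refine ⟨b, x, hb, ⟨1, hx⟩, ⟨0, ?_⟩, fun n => ?_⟩
    · intro h
      rw [h, norm_zero] at h0
      norm_num at h0
    · have := hn n
      simpa using this

lemma isClosed_Bset : IsClosed Bset := by
  have : Bset = (fun z : ℂ => (z, (0 : ℝ))) ⁻¹' Zset := by
    ext z
    exact mem_Bset_iff z
  rw [this]
  exact isClosed_Zset.preimage (by fun_prop)

/-- Uniform lower bound away from `Bset`. -/
lemma lower_bound {z : ℂ} (hz : z ∉ Bset) : ∃ ε : ℝ, 0 < ε ∧ ∀ b x : ℤ → ℂ, IsSign b →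
    (∃ C : ℝ, ∀ n, ‖x n‖ ≤ C) → ∀ D : ℝ, (∀ n, ‖op b x z n‖ ≤ D) → ∀ m, ε * ‖x m‖ ≤ D := by
  rw [mem_Bset_iff] at hz
  have hopen : {ε : ℝ | (z, ε) ∉ Zset} ∈ 𝓝 (0 : ℝ) := by
    have h1 : IsOpen {ε : ℝ | (z, ε) ∉ Zset} := by
      have : IsClosed {ε : ℝ | (z, ε) ∈ Zset} := isClosed_Zset.preimage (by fun_prop)
      exact this.isOpen_compl
    exact h1.mem_nhds hz
  obtain ⟨ε, hε, hball⟩ := Metric.mem_nhds_iff.mp hopen
  refine ⟨ε / 2, by linarith, ?_⟩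
  intro b x hb ⟨C, hC⟩ D hD m
  by_contra hcon
  push Not at hcon
  have hbdd : BddAbove (range fun k => ‖x k‖) := ⟨C, by rintro _ ⟨n, rfl⟩; exact hC n⟩
  have hD0 : 0 ≤ D := (norm_nonneg _).trans (hD 0)
  have hxm : x m ≠ 0 := by
    intro h
    rw [h, norm_zero, mul_zero] at hcon
    linarith
  have hmem : (z, ε / 2) ∈ Zset := by
    refine mem_Zset_of hb hC hxm fun n => ?_
    have h1 : ‖x m‖ ≤ ⨆ k, ‖x k‖ := le_ciSup hbdd m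
    have h2 : ε / 2 * ‖x m‖ ≤ ε / 2 * ⨆ k, ‖x k‖ := by gcongr
    linarith [hD n]
  have : ε / 2 ∈ Metric.ball (0 : ℝ) ε := by
    rw [Metric.mem_ball, Real.dist_eq, sub_zero, abs_of_pos (by linarith)]
    linarith
  exact hball this hmem

end Pool.Agent.Lib.MP_325c33_an
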