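import Mathlib

set_option autoImplicit false

namespace Pool.Agent.Lib.MP_325c33_an

/-- The self-similar sign sequence. -/
noncomputable def sgn : ℕ → ℂ
  | 0 => 1
  | (n + 1) => if n % 2 = 0 then sgn (n / 2) * sgn n else - sgn n
  termination_by n => n
  decreasing_by all_goals omega

lemma sgn_odd (j : ℕ) : sgn (2 * j + 1) = sgn j * sgn (2 * j) := by
  rw [sgn, if_pos (by omega)]
  congr 2
  omega

lemma sgn_even (j : ℕ) : sgn (2 * j + 2) = - sgn (2 * j + 1) := by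
  rw [sgn, if_neg (by omega)]

lemma sgn_sign (n : ℕ) : sgn n = 1 ∨ sgn n = -1 := by
  induction n using Nat.strong_induction_on with
  | _ n ih =>
    rcases n with _ | n
    · left; rw [sgn]
    · rw [sgn]
      split_ifs with h
      · rcases ih (n / 2) (by omega) with h1 | h1 <;> rcases ih n (by omega) with h2 | h2 <;>
          simp [h1, h2]
      · rcases ih n (by omega) with h2 | h2 <;> simp [h2]

/-- Half-line solution. -/
noncomputable def V (l : ℂ) : ℕ → ℂ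
  | 0 => 0
  | 1 => 1
  | (n + 2) => l * V l (n + 1) - sgn n * V l n

lemma V_succ (l : ℂ) (n : ℕ) : V l (n + 2) = l * V l (n + 1) - sgn n * V l n := rfl

lemma V_dec (l : ℂ) (j : ℕ) : V l (2 * j) = l * V (l ^ 2) j ∧
    V l (2 * j + 1) = V (l ^ 2) (j + 1) + sgn (2 * j) * V (l ^ 2) j := by
  induction j with
  | zero => simp [V]
  | succ j ih =>
    obtain ⟨h1, h2⟩ := ih
    have hs : sgn (2 * j) * sgn (2 * j) = 1 := by
      rcases sgn_sign (2 * j) with h | h <;> simp [h]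
    have h3 : V l (2 * (j + 1)) = l * V (l ^ 2) (j + 1) := by
      rw [show 2 * (j + 1) = 2 * j + 2 by ring, V_succ, h1, h2]
      ring
    refine ⟨h3, ?_⟩
    rw [show 2 * (j + 1) + 1 = (2 * j + 1) + 2 by ring, V_succ,
      show 2 * j + 1 + 1 = 2 * (j + 1) by ring, h3, h2, V_succ,
      show 2 * (j + 1) = 2 * j + 2 by ring, sgn_even, sgn_odd]
    linear_combination (- sgn j * V (l ^ 2) j) * hs

lemma V_bound (n : ℕ) : ∀ l : ℂ, ‖l‖ < 1 → ‖V l n‖ + ‖V l (n + 1)‖ ≤ 1 / (1 - ‖l‖) := by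
  induction n using Nat.strong_induction_on with
  | _ n ih =>
    intro l hl
    have h0 : 0 ≤ ‖l‖ := norm_nonneg l
    have hl2 : ‖l ^ 2‖ < 1 := by
      rw [norm_pow]
      nlinarith
    have hfrac : (1 + ‖l‖) * (1 / (1 - ‖l ^ 2‖)) = 1 / (1 - ‖l‖) := by
      rw [norm_pow]
      have e1 : (1 - ‖l‖ ^ 2) = (1 - ‖l‖) * (1 + ‖l‖) := by ring
      have e2 : (1 - ‖l‖) ≠ 0 := by linarith
      have e3 : (1 + ‖l‖) ≠ 0 := by positivity
      rw [e1]
      field_simp
    rcases Nat.even_or_odd' n with ⟨j, rfl | rfl⟩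
    · rcases Nat.eq_zero_or_pos j with rfl | hj
      · have : (1 : ℝ) ≤ 1 / (1 - ‖l‖) := by
          rw [le_div_iff₀ (by linarith)]
          linarith
        simpa [V] using this
      · obtain ⟨h1, h2⟩ := V_dec l j
        have hi := ih j (by omega) (l ^ 2) hl2
        rw [h1, h2, ← hfrac]
        have hs : ‖sgn (2 * j) * V (l ^ 2) j‖ = ‖V (l ^ 2) j‖ := by
          rcases sgn_sign (2 * j) with h | h <;> simp [h]
        calc ‖l * V (l ^ 2) j‖ + ‖V (l ^ 2) (j + 1) + sgn (2 * j) * V (l ^ 2) j‖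
            ≤ ‖l‖ * ‖V (l ^ 2) j‖ + (‖V (l ^ 2) (j + 1)‖ + ‖V (l ^ 2) j‖) := by
              rw [norm_mul]
              gcongr
              exact (norm_add_le _ _).trans (by rw [hs])
          _ ≤ (1 + ‖l‖) * (‖V (l ^ 2) j‖ + ‖V (l ^ 2) (j + 1)‖) := by
              nlinarith [norm_nonneg (V (l ^ 2) (j + 1))]
          _ ≤ _ := by gcongr
    · obtain ⟨h1, h2⟩ := V_dec l j
      obtain ⟨h3, h4⟩ := V_dec l (j + 1)
      have hi := ih j (by omega) (l ^ 2) hl2
      rw [show 2 * j + 1 + 1 = 2 * (j + 1) by ring, h2, h3, ← hfrac]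
      have hs : ‖sgn (2 * j) * V (l ^ 2) j‖ = ‖V (l ^ 2) j‖ := by
        rcases sgn_sign (2 * j) with h | h <;> simp [h]
      calc ‖V (l ^ 2) (j + 1) + sgn (2 * j) * V (l ^ 2) j‖ + ‖l * V (l ^ 2) (j + 1)‖
          ≤ (‖V (l ^ 2) (j + 1)‖ + ‖V (l ^ 2) j‖) + ‖l‖ * ‖V (l ^ 2) (j + 1)‖ := by
            rw [norm_mul l]
            gcongr
            exact (norm_add_le _ _).trans (by rw [hs])
        _ ≤ (1 + ‖l‖) * (‖V (l ^ 2) j‖ + ‖V (l ^ 2) (j + 1)‖) := by
            nlinarith [norm_nonneg (V (l ^ 2) (j)), norm_nonneg (V (l ^ 2) (j + 1))]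
        _ ≤ _ := by gcongr

end Pool.Agent.Lib.MP_325c33_an
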