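import Mathlib
import Pool.Agent.Lib.MP_325c33_an.Basic

set_option autoImplicit false

namespace Pool.Agent.Lib.MP_325c33_an

open Finset

/-- Dirichlet solution started at the site `a`: value at `a + n`. -/
def U (z : ℂ) (b : ℤ → ℂ) (a : ℤ) : ℕ → ℂ
  | 0 => 0
  | 1 => 1
  | (n + 2) => z * U z b a (n + 1) - b (a + n) * U z b a n

lemma U_zero (z : ℂ) (b : ℤ → ℂ) (a : ℤ) : U z b a 0 = 0 := rfl
lemma U_one (z : ℂ) (b : ℤ → ℂ) (a : ℤ) : U z b a 1 = 1 := rfl
lemma U_succ (z : ℂ) (b : ℤ → ℂ) (a : ℤ) (n : ℕ) :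
    U z b a (n + 2) = z * U z b a (n + 1) - b (a + n) * U z b a n := rfl

/-- reflected letters -/
def refB (b : ℤ → ℂ) : ℤ → ℂ
  | Int.ofNat n => b n
  | Int.negSucc n => b n

/-- reflected solution -/
def refX (z : ℂ) (b : ℤ → ℂ) : ℤ → ℂ
  | Int.ofNat n => U z b 0 n
  | Int.negSucc n => -(∏ i ∈ range (n + 1), b i) * U z b 0 (n + 1)

lemma refB_sign {b : ℤ → ℂ} (hb : IsSign b) : IsSign (refB b) := by
  intro n
  cases n with
  | ofNat n => exact hb n
  | negSucc n => exact hb n

lemma ref_op {b : ℤ → ℂ} (hb : IsSign b) (z : ℂ) (n : ℤ) : op (refB b) (refX z b) z n = 0 := by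
  have hsq : ∀ k : ℤ, b k * b k = 1 := by
    intro k
    rcases hb k with h | h <;> simp [h]
  rcases n with n | n
  · cases n with
    | zero =>
      have e1 : ((Int.ofNat 0) - 1 : ℤ) = Int.negSucc 0 := rfl
      have e2 : ((Int.ofNat 0) + 1 : ℤ) = Int.ofNat 1 := rfl
      rw [op, e1, e2]
      simp only [refB, refX, U_zero, U_one, prod_range_one, zero_add]
      have := hsq 0
      push_cast
      linear_combination -this
    | succ n =>
      have e1 : ((Int.ofNat (n + 1)) - 1 : ℤ) = Int.ofNat n := by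
        simp
      have e2 : ((Int.ofNat (n + 1)) + 1 : ℤ) = Int.ofNat (n + 2) := rfl
      rw [op, e1, e2]
      simp only [refB, refX, U_succ, zero_add]
      ring
  · cases n with
    | zero =>
      have e1 : ((Int.negSucc 0) - 1 : ℤ) = Int.negSucc 1 := rfl
      have e2 : ((Int.negSucc 0) + 1 : ℤ) = Int.ofNat 0 := rfl
      rw [op, e1, e2]
      simp only [refB, refX, prod_range_succ, prod_range_zero, U, zero_add, one_mul]
      have h1 := hsq 1
      push_cast
      linear_combination (- z * b 0) * h1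
    | succ n =>
      have e1 : ((Int.negSucc (n + 1)) - 1 : ℤ) = Int.negSucc (n + 2) := rfl
      have e2 : ((Int.negSucc (n + 1)) + 1 : ℤ) = Int.negSucc n := rfl
      rw [op, e1, e2]
      have hU : U z b 0 (n + 2 + 1) = z * U z b 0 (n + 2) - b ((n + 1 : ℕ) : ℤ) * U z b 0 (n + 1) := by
        have := U_succ z b 0 (n + 1)
        rw [zero_add] at this
        exact this
      simp only [refB, refX]
      rw [hU, prod_range_succ (fun i : ℕ => b i) (n + 2), prod_range_succ (fun i : ℕ => b i) (n + 1)]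
      have h1 := hsq ((n + 1 : ℕ) : ℤ)
      have h2 := hsq ((n + 2 : ℕ) : ℤ)
      set P := ∏ x ∈ range (n + 1), b (x : ℤ)
      linear_combination (-(P * b ((n + 1 : ℕ) : ℤ)) * (z * U z b 0 (n + 2) - b ((n + 1 : ℕ) : ℤ) * U z b 0 (n + 1))) * h2 + P * U z b 0 (n + 1) * h1

/-- A bounded half-line Dirichlet solution gives a point of `Bset`. -/
lemma mem_Bset_of_bounded {b : ℤ → ℂ} (hb : IsSign b) {z : ℂ} {C : ℝ}
    (hC : ∀ n : ℕ, ‖U z b 0 n‖ ≤ C) : z ∈ Bset := by
  refine ⟨refB b, refX z b, refB_sign hb, ⟨C, ?_⟩, ⟨1, ?_⟩, ref_op hb z⟩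
  · intro n
    rcases n with n | n
    · exact hC n
    · have h1 : ‖-(∏ i ∈ range (n + 1), b (i : ℤ))‖ = 1 := by
        rw [norm_neg, norm_prod]
        exact Finset.prod_eq_one fun i _ => norm_sign hb _
      simp only [refX]
      rw [norm_mul, h1, one_mul]
      exact hC (n + 1)
  · have : refX z b 1 = 1 := rfl
    rw [this]
    exact one_ne_zero

end Pool.Agent.Lib.MP_325c33_an
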