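import Mathlib
import Pool.Agent.Lib.MP_325c33_an.Reflect
import Pool.Agent.Lib.MP_325c33_an.Disc

set_option autoImplicit false

namespace Pool.Agent.Lib.MP_325c33_an

/-- Existence of a word of length `n` keeping the solution bounded by `C`. -/
def Reach (z : ℂ) (C : ℝ) : ℕ → ℂ → ℂ → Prop
  | 0, x, _ => ‖x‖ ≤ C
  | (n + 1), x, y => ‖x‖ ≤ C ∧ ∃ β : ℂ, (β = 1 ∨ β = -1) ∧ Reach z C n y (z * y - β * x)

lemma Reach.norm_le {z : ℂ} {C : ℝ} {n : ℕ} {x y : ℂ} (h : Reach z C n x y) : ‖x‖ ≤ C := by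
  cases n with
  | zero => exact h
  | succ n => exact h.1

lemma Reach.pred {z : ℂ} {C : ℝ} {n : ℕ} {x y : ℂ} (h : Reach z C (n + 1) x y) :
    Reach z C n x y := by
  induction n generalizing x y with
  | zero => exact h.1
  | succ n ih =>
    obtain ⟨h1, β, hβ, h2⟩ := h
    exact ⟨h1, β, hβ, ih h2⟩

lemma Reach.mono {z : ℂ} {C : ℝ} {n m : ℕ} {x y : ℂ} (h : Reach z C n x y) (hm : m ≤ n) :
    Reach z C m x y := by
  induction n with
  | zero =>
    obtain rfl : m = 0 := by omega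
    exact h
  | succ n ih =>
    rcases Nat.lt_or_ge n m with h1 | h1
    · obtain rfl : m = n + 1 := by omega
      exact h
    · exact ih h.pred h1

lemma exists_step {z : ℂ} {C : ℝ} {x y : ℂ} (h : ∀ n, Reach z C n x y) :
    ∃ β : ℂ, (β = 1 ∨ β = -1) ∧ ∀ n, Reach z C n y (z * y - β * x) := by
  by_contra hcon
  push Not at hcon
  obtain ⟨n1, h1⟩ := hcon 1 (Or.inl rfl)
  obtain ⟨n2, h2⟩ := hcon (-1) (Or.inr rfl)
  obtain ⟨-, β, hβ, h3⟩ := h (max n1 n2 + 1)
  rcases hβ with rfl | rfl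
  · exact h1 (h3.mono (le_max_left _ _))
  · exact h2 (h3.mono (le_max_right _ _))

/-- From arbitrarily long bounded words to a point of `Bset`. -/
lemma mem_Bset_of_reach {z : ℂ} {C : ℝ} {y : ℂ} (hy : y ≠ 0) (h : ∀ n, Reach z C n 0 y) :
    z ∈ Bset := by
  classical
  let P : ℂ × ℂ → Prop := fun s => ∀ n, Reach z C n s.1 s.2
  let β : ℂ × ℂ → ℂ := fun s => if hs : P s then (exists_step hs).choose else 1
  have hβ : ∀ s, β s = 1 ∨ β s = -1 := by
    intro s
    by_cases hs : P s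
    · simp only [β, dif_pos hs]
      exact (exists_step hs).choose_spec.1
    · simp [β, dif_neg hs]
  have hP : ∀ s, P s → P (s.2, z * s.2 - β s * s.1) := by
    intro s hs
    simp only [β, dif_pos hs]
    exact (exists_step hs).choose_spec.2
  let st : ℕ → ℂ × ℂ := fun n => Nat.rec (0, y) (fun _ s => (s.2, z * s.2 - β s * s.1)) n
  have hst0 : st 0 = (0, y) := rfl
  have hst : ∀ n, st (n + 1) = ((st n).2, z * (st n).2 - β (st n) * (st n).1) := fun n => rfl
  have hPst : ∀ n, P (st n) := by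
    intro n
    induction n with
    | zero => exact h
    | succ n ih => exact hP _ ih
  let b : ℤ → ℂ := fun m => β (st m.toNat)
  have hb : IsSign b := fun m => hβ _
  have hU : ∀ n, y * U z b 0 n = (st n).1 ∧ y * U z b 0 (n + 1) = (st n).2 := by
    intro n
    induction n with
    | zero => simp [U, hst0]
    | succ n ih =>
      refine ⟨ih.2, ?_⟩
      rw [U_succ, hst n]
      have : b (0 + (n : ℤ)) = β (st n) := by
        simp [b]
      rw [this, ← ih.1, ← ih.2]
      ring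
  refine mem_Bset_of_bounded hb (C := ‖y‖⁻¹ * C) (z := z) fun n => ?_
  have h1 : ‖(st n).1‖ ≤ C := (hPst n 0)
  rw [← (hU n).1, norm_mul] at h1
  have hy' : 0 < ‖y‖ := norm_pos_iff.mpr hy
  rw [le_inv_mul_iff₀ hy']
  exact h1

/-- Running a list of letters. -/
def run (z : ℂ) : List ℂ → ℂ × ℂ → ℂ × ℂ
  | [], s => s
  | (β :: u), s => run z u (s.2, z * s.2 - β * s.1)

lemma run_append (z : ℂ) (u v : List ℂ) (s : ℂ × ℂ) : run z (u ++ v) s = run z v (run z u s) := by
  induction u generalizing s with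
  | nil => rfl
  | cons β u ih => simp only [List.cons_append, run, ih]

lemma reach_of_run {z : ℂ} {C : ℝ} {n : ℕ} (u : List ℂ) (hu : ∀ β ∈ u, β = 1 ∨ β = -1)
    (s : ℂ × ℂ) (M : ℝ) (hM1 : ‖s.1‖ ≤ M) (hM2 : ‖s.2‖ ≤ M)
    (hC : M * (‖z‖ + 1) ^ u.length ≤ C)
    (h : Reach z C n (run z u s).1 (run z u s).2) : Reach z C (n + u.length) s.1 s.2 := by
  induction u generalizing s M with
  | nil => exact h
  | cons β u ih =>
    have hM0 : 0 ≤ M := (norm_nonneg _).trans hM1
    have h1 : 1 ≤ ‖z‖ + 1 := by linarith [norm_nonneg z]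
    refine ⟨?_, β, hu β (by simp), ?_⟩
    · have : (1 : ℝ) ≤ (‖z‖ + 1) ^ (β :: u).length := one_le_pow₀ h1
      nlinarith
    · refine ih (fun γ hγ => hu γ (by simp [hγ])) (s.2, z * s.2 - β * s.1) (M * (‖z‖ + 1)) ?_ ?_ ?_ h
      · simp only
        nlinarith
      · simp only
        have hβ : ‖β‖ = 1 := by
          rcases hu β (by simp) with h | h <;> simp [h]
        calc ‖z * s.2 - β * s.1‖ ≤ ‖z‖ * ‖s.2‖ + ‖β‖ * ‖s.1‖ := by
              rw [← norm_mul, ← norm_mul]
              exact norm_sub_le _ _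
          _ ≤ ‖z‖ * M + 1 * M := by rw [hβ]; gcongr
          _ = M * (‖z‖ + 1) := by ring
      · rw [List.length_cons, pow_succ] at hC
        linarith

open Matrix

/-- Transfer matrix of a word. -/
def Ph (z : ℂ) : List ℂ → Matrix (Fin 2) (Fin 2) ℂ
  | [] => !![z, 1; 1, 0]
  | (β :: w) => Ph z w * !![1, 0; 0, -β] * !![z, 1; 1, 0]

lemma Ph_append (z : ℂ) (w : List ℂ) (β : ℂ) :
    Ph z (w ++ [β]) = !![z, 1; 1, 0] * !![1, 0; 0, -β] * Ph z w := by
  induction w with
  | nil => simp [Ph]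
  | cons γ w ih =>
    simp only [List.cons_append, Ph, ih, Matrix.mul_assoc]

lemma Ph_reverse (z : ℂ) (w : List ℂ) : Ph z w.reverse = (Ph z w)ᵀ := by
  have hZ : (!![z, 1; 1, 0] : Matrix (Fin 2) (Fin 2) ℂ)ᵀ = !![z, 1; 1, 0] := by
    ext i j; fin_cases i <;> fin_cases j <;> rfl
  induction w with
  | nil => simp only [List.reverse_nil, Ph, hZ]
  | cons β w ih =>
    have hD : (!![1, 0; 0, -β] : Matrix (Fin 2) (Fin 2) ℂ)ᵀ = !![1, 0; 0, -β] := by
      ext i j; fin_cases i <;> fin_cases j <;> rfl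
    rw [List.reverse_cons, Ph_append, ih, Ph, Matrix.transpose_mul, Matrix.transpose_mul, hZ, hD,
      Matrix.mul_assoc]

lemma Ph_det (z : ℂ) (w : List ℂ) : (Ph z w).det = - w.prod := by
  induction w with
  | nil => simp [Ph, Matrix.det_fin_two]
  | cons β w ih =>
    rw [Ph, Matrix.det_mul, Matrix.det_mul, ih]
    simp [Matrix.det_fin_two]
    ring

lemma run_Ph (z : ℂ) (w : List ℂ) (a X Y : ℂ) :
    run z (a :: w) (X, Y) = (Ph z w 1 0 * Y - a * Ph z w 1 1 * X,
      Ph z w 0 0 * Y - a * Ph z w 0 1 * X) := by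
  induction w generalizing a X Y with
  | nil =>
    simp only [run, Ph, Matrix.of_apply, Matrix.cons_val', Matrix.cons_val_zero,
      Matrix.cons_val_one]
    ext <;> simp
  | cons β w ih =>
    have h1 : run z (a :: β :: w) (X, Y) = run z (β :: w) (Y, z * Y - a * X) := rfl
    rw [h1, ih]
    simp only [Ph, Matrix.mul_apply, Fin.sum_univ_two, Matrix.of_apply, Matrix.cons_val',
      Matrix.cons_val_zero, Matrix.cons_val_one]
    ext <;> simp <;> ring

/-- The macro states. -/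
def St (z l : ℂ) (w₀ : List ℂ) (j : ℕ) (s : ℂ × ℂ) : Prop :=
  s.1 = V l j ∧ ∃ w : List ℂ, ∃ a : ℂ, (w = w₀ ∨ w = w₀.reverse) ∧ (a = 1 ∨ a = -1) ∧
    Ph z w₀ 0 0 * s.2 = V l (j + 1) + a * Ph z w 0 1 * V l j

lemma St_step {z l : ℂ} {w₀ : List ℂ} (hw₀ : ∀ β ∈ w₀, β = 1 ∨ β = -1)
    (hl : l = z * Ph z w₀ 0 0) (hD : Ph z w₀ 0 0 ≠ 0) {j : ℕ} {s : ℂ × ℂ} (hs : St z l w₀ j s) :
    ∃ u : List ℂ, (∀ β ∈ u, β = 1 ∨ β = -1) ∧ u.length = w₀.length + 2 ∧
      St z l w₀ (j + 1) (run z u s) := by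
  obtain ⟨h1, w, a, hw, ha, h2⟩ := hs
  have hww : ∀ β ∈ w, β = 1 ∨ β = -1 := by
    rcases hw with rfl | rfl
    · exact hw₀
    · intro β hβ
      exact hw₀ β (by simpa using hβ)
  have hD' : Ph z w 0 0 = Ph z w₀ 0 0 := by
    rcases hw with rfl | rfl
    · rfl
    · rw [Ph_reverse]; rfl
  have hlen : w.length = w₀.length := by
    rcases hw with rfl | rfl <;> simp
  have hprod : w.prod = w₀.prod := by
    rcases hw with rfl | rfl
    · rfl
    · rw [List.prod_reverse]
  have hps : w₀.prod = 1 ∨ w₀.prod = -1 := by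
    clear hlen hprod hD' hw h2 hD hl
    induction w₀ with
    | nil => simp
    | cons β w₀ ih =>
      rw [List.prod_cons]
      rcases hw₀ β (by simp) with h | h <;> rcases ih (fun γ hγ => hw₀ γ (by simp [hγ])) with h' | h' <;>
        simp [h, h']
  have hsg := sgn_sign j
  set π := w₀.prod with hπ
  have haa : a * a = 1 := by rcases ha with h | h <;> simp [h]
  have hpp : π * π = 1 := by rcases hps with h | h <;> simp [h]
  refine ⟨(a :: w) ++ [sgn j * a * π], ?_, by simp [hlen], ?_⟩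
  · intro β hβ
    simp only [List.cons_append, List.mem_cons, List.mem_append,
      List.not_mem_nil, or_false] at hβ
    rcases hβ with rfl | hβ | rfl
    · exact ha
    · exact hww β hβ
    · rcases ha with h | h <;> rcases hps with h' | h' <;> rcases hsg with h'' | h'' <;>
        simp [h, h', h'']
  · have hdet := Ph_det z w
    rw [Matrix.det_fin_two, hprod] at hdet
    rw [run_append]
    obtain ⟨X, Y⟩ := s
    simp only at h1 h2
    rw [run_Ph z w a X Y]
    simp only [run]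
    have e2 : Ph z w 0 0 * Y - a * Ph z w 0 1 * X = V l (j + 1) := by
      rw [hD', h2, h1]
      ring
    refine ⟨e2, w.reverse, -(sgn j * a * π), ?_, ?_, ?_⟩
    · rcases hw with rfl | rfl
      · exact Or.inr rfl
      · exact Or.inl (List.reverse_reverse _)
    · rcases ha with h | h <;> rcases hps with h' | h' <;> rcases hsg with h'' | h'' <;>
        simp [h, h', h'']
    · have hE : Ph z w.reverse 0 1 = Ph z w 1 0 := by
        rw [Ph_reverse]; rfl
      rw [e2, hE, show j + 1 + 1 = j + 2 by ring, V_succ, hl]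
      rw [hD'] at hdet
      have h3 : Ph z w₀ 0 0 * (Ph z w 1 0 * Y - a * Ph z w 1 1 * X) =
          Ph z w 1 0 * V l (j + 1) + a * π * V l j := by
        rw [← h1]
        rw [← h1] at h2
        linear_combination (Ph z w 1 0) * h2 - a * X * hdet
      rw [← hl]
      linear_combination (-(sgn j * a * π)) * h3 - (V l (j + 1)) * hl
        - (sgn j * V l j) * haa * 1 - (sgn j * V l j * a * a) * hpp

end Pool.Agent.Lib.MP_325c33_an
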