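import Mathlib

set_option autoImplicit false

namespace Pool.Agent.Lib.MP_325c33_an

open Complex Metric

/-- A Harnack type estimate for `log |f|` where `f` is holomorphic with `|f| ≥ 1` on a ball. -/
lemma harnack {f : ℂ → ℂ} {c : ℂ} {R : ℝ} (hR : 0 < R) (hf : DifferentiableOn ℂ f (ball c R))
    (h1 : ∀ z ∈ ball c R, 1 ≤ ‖f z‖) {w : ℂ} (hw : dist w c ≤ R / 10) :
    |Real.log ‖f w‖ - Real.log ‖f c‖| ≤ (2 / 9) * Real.log ‖f c‖ := by
  have hne : ∀ z ∈ ball c R, f z ≠ 0 := by
    intro z hz h0
    have := h1 z hz
    rw [h0, norm_zero] at this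
    linarith
  have hopen : IsOpen (ball c R) := isOpen_ball
  have hcR : c ∈ ball c R := mem_ball_self hR
  have hwR : w ∈ ball c R := by
    rw [mem_ball]
    linarith
  -- holomorphic logarithm
  have hq : DifferentiableOn ℂ (fun z => deriv f z / f z) (ball c R) :=
    (hf.deriv hopen).div hf hne
  obtain ⟨g, hgc, hg⟩ := (hq.isExactOn_ball).with_val_at c (Complex.log (f c))
  have hexp : ∀ z ∈ ball c R, Complex.exp (g z) = f z := by
    have hder : ∀ z ∈ ball c R, HasDerivAt (fun z => f z * Complex.exp (-g z)) 0 z := by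
      intro z hz
      have hfz : HasDerivAt f (deriv f z) z := (hf.differentiableAt (hopen.mem_nhds hz)).hasDerivAt
      have := hfz.mul ((hg z hz).neg.cexp)
      convert! this using 1
      field_simp [hne z hz]
      ring
    have hconst : ∀ z ∈ ball c R, f z * Complex.exp (-g z) = f c * Complex.exp (-g c) := by
      intro z hz
      have := (convex_ball c R).is_const_of_fderivWithin_eq_zero (𝕜 := ℂ)
        (f := fun z => f z * Complex.exp (-g z))
        (fun x hx => ((hder x hx).differentiableAt).differentiableWithinAt) ?_ hz hcR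
      · exact this
      · intro x hx
        rw [fderivWithin_of_isOpen hopen hx]
        exact (hder x hx).hasFDerivAt.fderiv.trans (by ext; simp)
    intro z hz
    have h2 := hconst z hz
    rw [hgc, Complex.exp_neg (Complex.log (f c)), Complex.exp_log (hne c hcR),
      mul_inv_cancel₀ (hne c hcR), Complex.exp_neg] at h2
    have h3 : Complex.exp (g z) ≠ 0 := Complex.exp_ne_zero _
    field_simp at h2
    exact h2.symm
  have hre : ∀ z ∈ ball c R, (g z).re = Real.log ‖f z‖ := by
    intro z hz
    rw [← hexp z hz, Complex.norm_exp, Real.log_exp]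
  have hlog0 : ∀ z ∈ ball c R, 0 ≤ (g z).re := by
    intro z hz
    rw [hre z hz]
    exact Real.log_nonneg (h1 z hz)
  -- apply Borel-Caratheodory to `z ↦ g c - g (z + c)`
  set M := (g c).re with hM
  have hM0 : 0 ≤ M := hlog0 c hcR
  have key : ∀ M' : ℝ, M < M' → ‖g c - g w‖ ≤ (2 / 9) * M' := by
    intro M' hM'
    have hM'0 : 0 < M' := lt_of_le_of_lt hM0 hM'
    have hmaps : ∀ x ∈ ball (0:ℂ) R, x + c ∈ ball c R := by
      intro x hx
      simpa [mem_ball, dist_eq_norm] using hx
    have hd : DifferentiableOn ℂ (fun z => g c - g (z + c)) (ball 0 R) := by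
      intro x hx
      have h := (hg (x + c) (hmaps x hx)).differentiableAt
      have h2 : DifferentiableAt ℂ (fun z => g (z + c)) x :=
        DifferentiableAt.comp x h (by fun_prop)
      exact ((differentiableAt_const _).sub h2).differentiableWithinAt
    have hb := borelCaratheodory_zero (f := fun z => g c - g (z + c)) (M := M') (R := R)
      (z := w - c) hM'0 hd ?_ hR ?_ (by simp)
    · simp only [sub_add_cancel] at hb
      have hwc : ‖w - c‖ ≤ R / 10 := by rwa [← dist_eq_norm]
      refine hb.trans ?_
      rw [div_le_iff₀ (by linarith)]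
      nlinarith [norm_nonneg (w - c)]
    · intro x hx
      have := hlog0 (x + c) (hmaps x hx)
      simp only [Set.mem_ofPred_eq, Complex.sub_re]
      linarith
    · rw [mem_ball_zero_iff, ← dist_eq_norm]
      linarith
  have key2 : ‖g c - g w‖ ≤ (2 / 9) * M := by
    refine le_of_forall_pos_le_add fun ε hε => ?_
    have := key (M + ε) (by linarith)
    linarith
  rw [← hre w hwR, ← hre c hcR, abs_sub_comm, ← Complex.sub_re]
  exact (Complex.abs_re_le_norm _).trans key2

end Pool.Agent.Lib.MP_325c33_an
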