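import Mathlib
import Pool.Agent.Lib.MP_325c33_an.Decim

set_option autoImplicit false

namespace Pool.Agent.Lib.MP_325c33_an

open Set Topology

lemma V_norm_le {l : ℂ} (hl : ‖l‖ < 1) (n : ℕ) : ‖V l n‖ ≤ 1 / (1 - ‖l‖) :=
  (le_add_of_nonneg_right (norm_nonneg _)).trans (V_bound n l hl)

lemma mem_Bset_of_word {z : ℂ} {w₀ : List ℂ} (hw₀ : ∀ β ∈ w₀, β = 1 ∨ β = -1)
    (hD : Ph z w₀ 0 0 ≠ 0) (hl : ‖z * Ph z w₀ 0 0‖ < 1) : z ∈ Bset := by
  set l := z * Ph z w₀ 0 0 with hldef
  set k := w₀.length + 2 with hk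
  set C0 := 1 / (1 - ‖l‖) with hC0
  have hC0' : 0 ≤ C0 := (norm_nonneg _).trans (V_norm_le hl 0)
  set E1 := ‖Ph z w₀ 0 1‖ + ‖Ph z w₀.reverse 0 1‖ with hE1
  have hE1' : 0 ≤ E1 := by positivity
  have hDn : 0 < ‖Ph z w₀ 0 0‖ := norm_pos_iff.mpr hD
  set C1 := (C0 + E1 * C0) / ‖Ph z w₀ 0 0‖ with hC1
  set M := max C0 C1 with hM
  have hM0 : 0 ≤ M := hC0'.trans (le_max_left _ _)
  have hz1 : 1 ≤ ‖z‖ + 1 := by linarith [norm_nonneg z]
  have hSt : ∀ j s, St z l w₀ j s → ‖s.1‖ ≤ M ∧ ‖s.2‖ ≤ M := by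
    intro j s ⟨h1, w, a, hw, ha, h2⟩
    refine ⟨?_, ?_⟩
    · rw [h1]
      exact (V_norm_le hl j).trans (le_max_left _ _)
    · refine le_trans ?_ (le_max_right _ _)
      rw [hC1, le_div_iff₀ hDn, ← norm_mul, mul_comm, h2]
      have hEw : ‖Ph z w 0 1‖ ≤ E1 := by
        rcases hw with rfl | rfl
        · exact le_add_of_nonneg_right (norm_nonneg _)
        · exact le_add_of_nonneg_left (norm_nonneg _)
      have hna : ‖a‖ = 1 := by rcases ha with h | h <;> simp [h]
      calc ‖V l (j + 1) + a * Ph z w 0 1 * V l j‖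
          ≤ ‖V l (j + 1)‖ + ‖a‖ * ‖Ph z w 0 1‖ * ‖V l j‖ := by
            rw [← norm_mul, ← norm_mul]
            exact norm_add_le _ _
        _ ≤ C0 + 1 * E1 * C0 := by
            rw [hna]
            have h3 := V_norm_le hl (j + 1)
            have h4 := V_norm_le hl j
            gcongr
        _ = C0 + E1 * C0 := by ring
  have key : ∀ n j s, St z l w₀ j s → Reach z (M * (‖z‖ + 1) ^ k) (n * k) s.1 s.2 := by
    intro n
    induction n with
    | zero =>
      intro j s hs
      rw [zero_mul]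
      have h1 := (hSt j s hs).1
      have h2 : (1 : ℝ) ≤ (‖z‖ + 1) ^ k := one_le_pow₀ hz1
      change ‖s.1‖ ≤ _
      nlinarith
    | succ n ih =>
      intro j s hs
      obtain ⟨u, hu, hlen, hst⟩ := St_step hw₀ hldef hD hs
      have h1 := ih (j + 1) _ hst
      have hlen' : u.length = k := by rw [hlen]
      rw [Nat.succ_mul, ← hlen']
      refine reach_of_run u hu s M (hSt j s hs).1 (hSt j s hs).2 le_rfl ?_
      rw [hlen']
      exact h1
  have hinit : St z l w₀ 0 (0, (Ph z w₀ 0 0)⁻¹) := by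
    refine ⟨rfl, w₀, 1, Or.inl rfl, Or.inl rfl, ?_⟩
    simp only [V, mul_zero, add_zero]
    exact mul_inv_cancel₀ hD
  refine mem_Bset_of_reach (C := M * (‖z‖ + 1) ^ k) (inv_ne_zero hD) fun n => ?_
  exact (key n 0 _ hinit).mono (by rw [hk]; exact Nat.le_mul_of_pos_right n (by omega))

lemma run_U (z : ℂ) (b : ℤ → ℂ) (a : ℤ) (s m : ℕ) :
    run z (List.map (fun i : ℕ => b (a + s + i)) (List.range m)) (U z b a s, U z b a (s + 1)) =
      (U z b a (s + m), U z b a (s + m + 1)) := by
  induction m with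
  | zero => rfl
  | succ m ih =>
    rw [List.range_succ, List.map_append, run_append, ih]
    simp only [List.map_cons, List.map_nil, run]
    have : U z b a (s + (m + 1) + 1) = z * U z b a (s + m + 1) - b (a + (s + m : ℕ)) * U z b a (s + m) :=
      U_succ z b a (s + m)
    rw [this]
    push_cast
    rw [← add_assoc a, ← add_assoc s]

lemma U_eq_Ph (z : ℂ) (b : ℤ → ℂ) (a : ℤ) (m : ℕ) :
    U z b a (m + 2) = Ph z (List.map (fun i : ℕ => b (a + 1 + i)) (List.range m)) 0 0 := by
  have h := run_U z b a 0 (m + 1)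
  have h2 : (List.map (fun i : ℕ => b (a + (0 : ℕ) + i)) (List.range (m + 1))) =
      b a :: List.map (fun i : ℕ => b (a + 1 + i)) (List.range m) := by
    rw [List.range_succ_eq_map, List.map_cons, List.map_map]
    congr 1
    · simp
    · apply List.map_congr_left
      intro i _
      simp only [Function.comp_apply]
      push_cast
      congr 1
      ring
  rw [h2, U_zero, U_one, run_Ph] at h
  have h3 := congrArg Prod.snd h
  simp only [mul_one, mul_zero, sub_zero] at h3
  rw [h3]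
  congr 1
  omega

lemma unit_ball_subset {z : ℂ} (hz : ‖z‖ < 1) : z ∈ Bset := by
  have hb : IsSign (fun m : ℤ => sgn m.toNat) := fun m => sgn_sign _
  refine mem_Bset_of_bounded hb (C := 1 / (1 - ‖z‖)) fun n => ?_
  have : ∀ n, U z (fun m : ℤ => sgn m.toNat) 0 n = V z n ∧
      U z (fun m : ℤ => sgn m.toNat) 0 (n + 1) = V z (n + 1) := by
    intro n
    induction n with
    | zero => simp [U, V]
    | succ n ih =>
      refine ⟨ih.2, ?_⟩
      rw [U_succ, V_succ, ih.1, ih.2]
      simp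
  rw [(this n).1]
  exact V_norm_le hz n

/-- The polynomial symmetries, away from zeros. -/
lemma mem_Bset_of_U {z : ℂ} {b : ℤ → ℂ} (hb : IsSign b) {a : ℤ} {n : ℕ} (hn : 1 ≤ n)
    (h0 : U z b a n ≠ 0) (h1 : ‖z * U z b a n‖ < 1) : z ∈ Bset := by
  rcases n with _ | _ | m
  · omega
  · rw [zero_add, U_one, mul_one] at h1
    exact unit_ball_subset h1
  · rw [U_eq_Ph] at h0 h1
    refine mem_Bset_of_word ?_ h0 h1
    intro β hβ
    rw [List.mem_map] at hβ
    obtain ⟨i, _, rfl⟩ := hβ
    exact hb _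

open Polynomial in
/-- `U` as a polynomial in `z`. -/
noncomputable def PU (b : ℤ → ℂ) (a : ℤ) : ℕ → ℂ[X]
  | 0 => 0
  | 1 => 1
  | (n + 2) => X * PU b a (n + 1) - C (b (a + n)) * PU b a n

lemma PU_eval (z : ℂ) (b : ℤ → ℂ) (a : ℤ) (n : ℕ) :
    (PU b a n).eval z = U z b a n ∧ (PU b a (n + 1)).eval z = U z b a (n + 1) := by
  induction n with
  | zero => simp [PU, U]
  | succ n ih =>
    refine ⟨ih.2, ?_⟩
    rw [PU, U_succ]
    simp [ih.1, ih.2]

open Polynomial in
lemma PU_monic (b : ℤ → ℂ) (a : ℤ) (n : ℕ) :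
    ((PU b a (n + 1)).Monic ∧ (PU b a (n + 1)).natDegree = n) ∧
    (PU b a n).degree < n := by
  induction n with
  | zero => simp [PU]
  | succ n ih =>
    obtain ⟨⟨h1, h2⟩, h3⟩ := ih
    have hd1 : (PU b a (n + 1)).degree = n := by
      rw [degree_eq_natDegree h1.ne_zero, h2]
    have hX : (X * PU b a (n + 1)).Monic := monic_X.mul h1
    have hXd : (X * PU b a (n + 1)).degree = ((n + 1 : ℕ) : WithBot ℕ) := by
      rw [degree_mul, degree_X, hd1]
      push_cast
      ring
    have hlt : (C (b (a + n)) * PU b a n).degree < (X * PU b a (n + 1)).degree := by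
      rw [hXd]
      have h4 : (C (b (a + n)) * PU b a n).degree ≤ (PU b a n).degree := by
        refine (degree_mul_le _ _).trans ?_
        have h5 : (C (b (a + n))).degree ≤ 0 := degree_C_le
        calc (C (b (a + n))).degree + (PU b a n).degree ≤ 0 + (PU b a n).degree := by gcongr
          _ = _ := zero_add _
      refine lt_of_le_of_lt h4 (lt_trans h3 ?_)
      exact_mod_cast Nat.lt_succ_self n
    refine ⟨⟨?_, ?_⟩, ?_⟩
    · rw [PU]
      exact hX.sub_of_left hlt
    · rw [PU, natDegree_eq_of_degree_eq (degree_sub_eq_left_of_degree_lt hlt)]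
      exact natDegree_eq_of_degree_eq_some hXd
    · rw [hd1]
      exact_mod_cast Nat.lt_succ_self n

lemma U_continuous (b : ℤ → ℂ) (a : ℤ) (n : ℕ) : Continuous fun z => U z b a n := by
  have : (fun z => U z b a n) = fun z => (PU b a n).eval z := by
    ext z
    exact (PU_eval z b a n).1.symm
  rw [this]
  exact (PU b a n).continuous

lemma U_differentiable (b : ℤ → ℂ) (a : ℤ) (n : ℕ) : Differentiable ℂ fun z => U z b a n := by
  have : (fun z => U z b a n) = fun z => (PU b a n).eval z := by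
    ext z
    exact (PU_eval z b a n).1.symm
  rw [this]
  exact (PU b a n).differentiable

lemma mem_Bset_of_U' {z : ℂ} {b : ℤ → ℂ} (hb : IsSign b) {a : ℤ} {n : ℕ} (hn : 1 ≤ n)
    (h1 : ‖z * U z b a n‖ < 1) : z ∈ Bset := by
  let O : Set ℂ := {z | ‖z * U z b a n‖ < 1}
  have hO : IsOpen O := by
    have hc : Continuous fun z => ‖z * U z b a n‖ := (continuous_id.mul (U_continuous b a n)).norm
    exact isOpen_lt hc continuous_const
  let R : Set ℂ := {z | U z b a n = 0}
  have hR : R.Finite := by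
    obtain ⟨m, rfl⟩ : ∃ m, n = m + 1 := ⟨n - 1, by omega⟩
    have hne : PU b a (m + 1) ≠ 0 := (PU_monic b a m).1.1.ne_zero
    refine ((PU b a (m + 1)).roots.toFinset.finite_toSet).subset ?_
    intro w hw
    simp only [Finset.mem_coe, Multiset.mem_toFinset, Polynomial.mem_roots hne,
      Polynomial.IsRoot.def]
    rw [(PU_eval w b a (m + 1)).1]
    exact hw
  have hdense : Dense Rᶜ := hR.countable.dense_compl ℝ
  have hsub : O ∩ Rᶜ ⊆ Bset := by
    intro w hw
    exact mem_Bset_of_U hb hn hw.2 hw.1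
  have : z ∈ closure (O ∩ Rᶜ) := hdense.open_subset_closure_inter hO h1
  exact (closure_minimal hsub isClosed_Bset) this

lemma one_le_of_notMem_interior {z : ℂ} (hz : z ∉ interior Bset) {b : ℤ → ℂ} (hb : IsSign b)
    {a : ℤ} {n : ℕ} (hn : 1 ≤ n) : 1 ≤ ‖z * U z b a n‖ := by
  by_contra hcon
  push Not at hcon
  apply hz
  have hO : IsOpen {z | ‖z * U z b a n‖ < 1} := by
    have hc : Continuous fun z => ‖z * U z b a n‖ := (continuous_id.mul (U_continuous b a n)).norm
    exact isOpen_lt hc continuous_const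
  exact interior_maximal (fun w hw => mem_Bset_of_U' hb hn hw) hO hcon

end Pool.Agent.Lib.MP_325c33_an
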