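import Mathlib
import Pool.Agent.Lib.MP_325c33_an.Reflect

set_option autoImplicit false

namespace Pool.Agent.Lib.MP_325c33_an

open Finset

lemma wronsk_x {b x : ℤ → ℂ} {z : ℂ} (hx : ∀ n, op b x z n = 0) (a : ℤ) (n : ℕ) :
    x (a + n) * U z b a (n + 1) - x (a + n + 1) * U z b a n = (∏ i ∈ range n, b (a + i)) * x a := by
  induction n with
  | zero => simp [U]
  | succ n ih =>
    have h := hx (a + n + 1)
    rw [op, show a + (n : ℤ) + 1 - 1 = a + n by ring] at h
    rw [prod_range_succ, U_succ]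
    push_cast
    rw [show a + ((n : ℤ) + 1) = a + n + 1 by ring]
    linear_combination b (a + n) * ih - U z b a (n + 1) * h

lemma poisson {b x : ℤ → ℂ} {z : ℂ} (hx : ∀ n, op b x z n = 0) (N M : ℕ) :
    x 0 * U z b (-N) (N + M) = x M * U z b (-N) N +
      (∏ i ∈ range N, b (-N + i)) * x (-N) * U z b 0 M := by
  have key : ∀ M : ℕ, (x 0 * U z b (-N) (N + M) = x M * U z b (-N) N +
      (∏ i ∈ range N, b (-N + i)) * x (-N) * U z b 0 M) ∧
      (x 0 * U z b (-N) (N + (M + 1)) = x ((M + 1 : ℕ) : ℤ) * U z b (-N) N +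
      (∏ i ∈ range N, b (-N + i)) * x (-N) * U z b 0 (M + 1)) := by
    intro M
    induction M with
    | zero =>
      constructor
      · simp [U]
      · have h := wronsk_x hx (-N) N
        rw [show (-(N : ℤ) + N) = 0 by ring, show ((0 : ℤ) + 1) = 1 by ring] at h
        simp only [zero_add, Nat.cast_one, U_one, mul_one]
        linear_combination h
    | succ M ih =>
      refine ⟨ih.2, ?_⟩
      have h := hx (M + 1)
      rw [op, show (M : ℤ) + 1 - 1 = M by ring] at h
      have e1 : U z b (-N) (N + (M + 1 + 1)) = z * U z b (-N) (N + (M + 1)) - b M * U z b (-N) (N + M) := by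
        have := U_succ z b (-N) (N + M)
        rw [show (-(N : ℤ) + ((N + M : ℕ) : ℤ)) = M by push_cast; ring] at this
        exact this
      have e2 : U z b 0 (M + 1 + 1) = z * U z b 0 (M + 1) - b M * U z b 0 M := by
        have := U_succ z b 0 M
        rw [zero_add] at this
        exact this
      obtain ⟨h1, h2⟩ := ih
      rw [e1, e2]
      push_cast at h2 ⊢
      linear_combination z * h2 - b M * h1 - U z b (-N) N * h
  exact (key M).1

lemma poisson_norm {b x : ℤ → ℂ} {z : ℂ} (hb : IsSign b) (hx : ∀ n, op b x z n = 0)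
    (hx1 : ∀ n, ‖x n‖ ≤ 1) (hx0 : 1 / 2 ≤ ‖x 0‖) (N M : ℕ) :
    ‖U z b (-N) (N + M)‖ ≤ 2 * (‖U z b (-N) N‖ + ‖U z b 0 M‖) := by
  have h := poisson hx N M
  have hp : ‖∏ i ∈ range N, b (-(N : ℤ) + i)‖ = 1 := by
    rw [norm_prod]
    exact Finset.prod_eq_one fun i _ => norm_sign hb _
  have h2 : ‖x 0‖ * ‖U z b (-N) (N + M)‖ ≤ ‖U z b (-N) N‖ + ‖U z b 0 M‖ := by
    rw [← norm_mul, h]
    refine (norm_add_le _ _).trans ?_
    rw [norm_mul, norm_mul, norm_mul, hp, one_mul]
    have h3 := hx1 M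
    have h4 := hx1 (-N)
    have h5 := norm_nonneg (U z b (-N) N)
    have h6 := norm_nonneg (U z b 0 M)
    nlinarith
  nlinarith [norm_nonneg (U z b (-N) (N + M))]

lemma wronsk_U (z : ℂ) (b : ℤ → ℂ) (a : ℤ) (N n : ℕ) :
    U z b a (N + n) * U z b (a + N) (n + 1) - U z b a (N + n + 1) * U z b (a + N) n =
      (∏ i ∈ range n, b (a + N + i)) * U z b a N := by
  induction n with
  | zero => simp [U]
  | succ n ih =>
    have e1 : U z b a (N + (n + 1) + 1) = z * U z b a (N + n + 1) - b (a + N + n) * U z b a (N + n) := by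
      have := U_succ z b a (N + n)
      push_cast at this
      rw [← add_assoc] at this
      exact this
    rw [prod_range_succ, e1, U_succ z b (a + N) n]
    rw [show N + (n + 1) = N + n + 1 by ring]
    linear_combination b (a + N + n) * ih

lemma U_left (z : ℂ) (b : ℤ → ℂ) (a : ℤ) (n : ℕ) :
    U z b a (n + 2) = z * U z b (a + 1) (n + 1) - b (a + 1) * U z b (a + 2) n ∧
    U z b a (n + 3) = z * U z b (a + 1) (n + 2) - b (a + 1) * U z b (a + 2) (n + 1) := by
  induction n with
  | zero =>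
    simp [U]
  | succ n ih =>
    refine ⟨ih.2, ?_⟩
    have e1 : U z b a (n + 1 + 3) = z * U z b a (n + 3) - b (a + (n + 2 : ℕ)) * U z b a (n + 2) :=
      U_succ z b a (n + 2)
    have e2 : U z b (a + 1) (n + 1 + 2) = z * U z b (a + 1) (n + 2) -
        b (a + 1 + (n + 1 : ℕ)) * U z b (a + 1) (n + 1) := U_succ z b (a + 1) (n + 1)
    have e3 : U z b (a + 2) (n + 1 + 1) = z * U z b (a + 2) (n + 1) -
        b (a + 2 + (n : ℕ)) * U z b (a + 2) n := U_succ z b (a + 2) n
    rw [e1, e2, e3, ih.1, ih.2]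
    rw [show (a + 1 + ((n + 1 : ℕ) : ℤ)) = a + ((n + 2 : ℕ) : ℤ) by push_cast; ring,
      show (a + 2 + (n : ℤ)) = a + ((n + 2 : ℕ) : ℤ) by push_cast; ring]
    ring

/-- The left Dirichlet determinants as a Dirichlet solution for the reversed sequence. -/
lemma U_rev (z : ℂ) (b : ℤ → ℂ) (N : ℕ) :
    U z b (-N) N = U z (fun n => b (-n - 1)) 0 N ∧
    U z b (-((N + 1 : ℕ) : ℤ)) (N + 1) = U z (fun n => b (-n - 1)) 0 (N + 1) := by
  induction N with
  | zero => simp [U]
  | succ N ih =>
    refine ⟨ih.2, ?_⟩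
    have h := (U_left z b (-((N + 1 + 1 : ℕ) : ℤ)) N).1
    rw [show (-((N + 1 + 1 : ℕ) : ℤ) + 1) = -((N + 1 : ℕ) : ℤ) by push_cast; ring,
      show (-((N + 1 + 1 : ℕ) : ℤ) + 2) = -(N : ℤ) by push_cast; ring] at h
    rw [h, U_succ, ih.1, ih.2]
    congr 3
    push_cast
    ring

/-- truncated Dirichlet solution on the whole line -/
lemma op_E (z : ℂ) (b : ℤ → ℂ) (a n : ℤ) :
    op b (fun m => U z b a (m - a).toNat) z n = if n = a then 1 else 0 := by
  rw [op]
  rcases lt_trichotomy n a with h | h | h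
  · rw [if_neg (by omega), show (n - 1 - a).toNat = 0 by omega, show (n + 1 - a).toNat = 0 by omega,
      show (n - a).toNat = 0 by omega]
    simp [U]
  · rw [if_pos h, show (n - 1 - a).toNat = 0 by omega, show (n + 1 - a).toNat = 1 by omega,
      show (n - a).toNat = 0 by omega]
    simp [U]
  · obtain ⟨k, hk⟩ : ∃ k : ℕ, n = a + k + 1 := ⟨(n - a - 1).toNat, by omega⟩
    rw [if_neg (by omega), show (n - 1 - a).toNat = k by omega,
      show (n + 1 - a).toNat = k + 2 by omega,
      show (n - a).toNat = k + 1 by omega, U_succ, show n - 1 = a + k by omega]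
    ring

lemma green {z : ℂ} {b : ℤ → ℂ} (hb : IsSign b) {ε : ℝ}
    (hε : ∀ b x : ℤ → ℂ, IsSign b →
    (∃ C : ℝ, ∀ n, ‖x n‖ ≤ C) → ∀ D : ℝ, (∀ n, ‖op b x z n‖ ≤ D) → ∀ m, ε * ‖x m‖ ≤ D)
    {N M : ℕ} (hN : 1 ≤ N) (hM : 1 ≤ M) :
    ε * (‖U z b (-N) N‖ * ‖U z b 0 M‖) ≤
      max ‖U z b (-N) (N + M)‖ (max ‖U z b (-N) N‖ ‖U z b 0 M‖) := by
  set W := U z b (-N) (N + M) with hW
  set L := U z b (-N) N with hL
  set R := U z b 0 M with hR
  set g : ℤ → ℂ := fun m => R * U z b (-N) (m - (-N)).toNat - W * U z b 0 (m - 0).toNat with hg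
  have hgM : g M = 0 := by
    simp only [hg]
    rw [show ((M : ℤ) - -N).toNat = N + M by omega, show ((M : ℤ) - 0).toNat = M by omega]
    ring
  have hg0 : g 0 = R * L := by
    simp only [hg]
    rw [show ((0 : ℤ) - -N).toNat = N by omega, show ((0 : ℤ) - 0).toNat = 0 by omega]
    simp [U, hL]
  have hgneg : ∀ m : ℤ, m ≤ -N → g m = 0 := by
    intro m hm
    simp only [hg]
    rw [show (m - -N).toNat = 0 by omega, show (m - 0).toNat = 0 by omega]
    simp [U]
  have hopg : ∀ n, op b g z n = R * (if n = -N then 1 else 0) - W * (if n = 0 then 1 else 0) := by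
    intro n
    have h1 := op_E z b (-N) n
    have h2 := op_E z b 0 n
    rw [← h1, ← h2]
    simp only [op, hg]
    ring
  have hgM1 : ‖g (M + 1)‖ = ‖L‖ := by
    have h := wronsk_U z b (-N) N M
    rw [show (-(N : ℤ) + N) = 0 by ring] at h
    have hp : ‖∏ i ∈ range M, b ((0 : ℤ) + i)‖ = 1 := by
      rw [norm_prod]
      exact Finset.prod_eq_one fun i _ => norm_sign hb _
    have h3 : g (M + 1) = -((∏ i ∈ range M, b ((0 : ℤ) + i)) * L) := by
      simp only [hg]
      rw [show ((M : ℤ) + 1 - -N).toNat = N + M + 1 by omega,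
        show ((M : ℤ) + 1 - 0).toNat = M + 1 by omega, ← h]
      ring
    rw [h3, norm_neg, norm_mul, hp, one_mul]
  set u : ℤ → ℂ := fun m => if m ≤ M then g m else 0 with hu
  have hbd : ∃ C : ℝ, ∀ n, ‖u n‖ ≤ C := by
    refine ⟨∑ n ∈ Finset.Icc (-(N : ℤ)) M, ‖u n‖, fun n => ?_⟩
    by_cases hn : n ∈ Finset.Icc (-(N : ℤ)) M
    · exact Finset.single_le_sum (f := fun n => ‖u n‖) (fun i _ => norm_nonneg _) hn
    · have : u n = 0 := by
        rw [Finset.mem_Icc, not_and_or] at hn
        simp only [hu]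
        split_ifs with h
        · exact hgneg n (by omega)
        · rfl
      rw [this, norm_zero]
      exact Finset.sum_nonneg fun i _ => norm_nonneg _
  have hop : ∀ n, ‖op b u z n‖ ≤ max ‖W‖ (max ‖L‖ ‖R‖) := by
    intro n
    rcases lt_trichotomy n M with h | h | h
    · have e : op b u z n = op b g z n := by
        simp only [op, hu]
        rw [if_pos (by omega), if_pos (by omega), if_pos (by omega)]
      rw [e, hopg]
      by_cases h1 : n = -N
      · rw [if_pos h1, if_neg (by omega)]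
        simp
      · by_cases h2 : n = 0
        · rw [if_neg h1, if_pos h2]
          simp
        · rw [if_neg h1, if_neg h2]
          simp
    · have e : op b u z n = - g (M + 1) := by
        have h1 := hopg n
        rw [if_neg (by omega), if_neg (by omega)] at h1
        simp only [op, hu] at h1 ⊢
        rw [if_pos (by omega), if_neg (by omega), if_pos (by omega)]
        rw [h] at h1 ⊢
        linear_combination h1
      rw [e, norm_neg, hgM1]
      simp
    · have e : op b u z n = 0 := by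
        simp only [op, hu]
        rw [if_neg (by omega : ¬ (n + 1 ≤ (M : ℤ))), if_neg (by omega : ¬ (n ≤ (M : ℤ)))]
        by_cases h1 : n = M + 1
        · rw [if_pos (by omega), show n - 1 = (M : ℤ) by omega, hgM]
          ring
        · rw [if_neg (by omega)]
          ring
      rw [e, norm_zero]
      exact (norm_nonneg _).trans (le_max_left _ _)
  have hfin := hε b u hb hbd _ hop 0
  have hu0 : u 0 = R * L := by
    simp only [hu]
    rw [if_pos (by omega), hg0]
  rw [hu0, norm_mul, mul_comm ‖R‖] at hfin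
  exact hfin

end Pool.Agent.Lib.MP_325c33_an
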