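import Mathlib
import Pool.Agent.Lib.MP_325c33_an.Symm
import Pool.Agent.Lib.MP_325c33_an.Wronsk
import Pool.Agent.Lib.MP_325c33_an.Harnack

set_option autoImplicit false

namespace Pool.Agent.Lib.MP_325c33_an

open Set Metric

lemma unbounded {z : ℂ} (hz : z ∉ Bset) {b : ℤ → ℂ} (hb : IsSign b) (T : ℝ) :
    ∃ n : ℕ, T ≤ ‖U z b 0 n‖ := by
  by_contra hcon
  push Not at hcon
  exact hz (mem_Bset_of_bounded hb (C := T) fun n => (hcon n).le)

lemma balanced {z : ℂ} (hz : z ∉ Bset) {b : ℤ → ℂ} (hb : IsSign b) {T : ℝ} (hT : 1 < T) :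
    ∃ n : ℕ, 1 ≤ n ∧ T ≤ ‖U z b 0 n‖ ∧ ‖U z b 0 n‖ ≤ (‖z‖ + 1) * T := by
  classical
  have h := unbounded hz hb T
  obtain ⟨n, hn, hmin⟩ : ∃ n, T ≤ ‖U z b 0 n‖ ∧ ∀ m < n, ¬ T ≤ ‖U z b 0 m‖ :=
    ⟨Nat.find h, Nat.find_spec h, fun m hm => Nat.find_min h hm⟩
  rcases n with _ | _ | n
  · simp [U] at hn; linarith
  · simp [U] at hn; linarith
  · refine ⟨n + 2, by omega, hn, ?_⟩
    have h1 := hmin n (by omega)
    have h2 := hmin (n + 1) (by omega)
    push Not at h1 h2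
    rw [U_succ]
    calc ‖z * U z b 0 (n + 1) - b (0 + n) * U z b 0 n‖
        ≤ ‖z‖ * ‖U z b 0 (n + 1)‖ + ‖b (0 + n)‖ * ‖U z b 0 n‖ := by
          rw [← norm_mul, ← norm_mul]
          exact norm_sub_le _ _
      _ ≤ ‖z‖ * T + 1 * T := by
          rw [norm_sign hb]
          gcongr
      _ = (‖z‖ + 1) * T := by ring

theorem Bset_subset_closure : Bset ⊆ closure (interior Bset) := by
  intro z₀ hz₀
  by_contra hcl
  obtain ⟨R, hR, hball⟩ := Metric.isOpen_iff.mp (isClosed_closure (s := interior Bset)).isOpen_compl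
    z₀ hcl
  have hint : ∀ z ∈ ball z₀ R, z ∉ interior Bset := by
    intro z hz hzi
    exact hball hz (subset_closure hzi)
  -- a nearby point outside of `Bset`
  obtain ⟨z₁, hz₁d, hz₁⟩ : ∃ z₁, dist z₁ z₀ ≤ R / 10 ∧ z₁ ∉ Bset := by
    by_contra hcon
    push Not at hcon
    apply hint z₀ (mem_ball_self hR)
    rw [mem_interior]
    exact ⟨ball z₀ (R / 10), fun w hw => hcon w (mem_ball.mp hw).le, isOpen_ball,
      mem_ball_self (by linarith)⟩
  obtain ⟨ε, hε, hlow⟩ := lower_bound hz₁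
  obtain ⟨b, x, hb, hx1, hx0, hx⟩ := (mem_Bset_iff z₀).mp hz₀
  have hx' : ∀ n, op b x z₀ n = 0 := by
    intro n
    have := hx n
    simpa using this
  have hz₁R : z₁ ∈ ball z₀ R := by
    rw [mem_ball]
    linarith
  have hz₀R : z₀ ∈ ball z₀ R := mem_ball_self hR
  have hge : ∀ z ∈ ball z₀ R, ∀ (a : ℤ) (n : ℕ), 1 ≤ n → 1 ≤ ‖z * U z b a n‖ :=
    fun z hz a n hn => one_le_of_notMem_interior (hint z hz) hb hn
  have hz₁0 : 0 < ‖z₁‖ := by
    rw [norm_pos_iff]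
    rintro rfl
    have := hge 0 hz₁R 0 1 le_rfl
    simp at this
    linarith
  have hz₀0 : 0 < ‖z₀‖ := by
    rw [norm_pos_iff]
    rintro rfl
    have := hge 0 hz₀R 0 1 le_rfl
    simp at this
    linarith
  have hharn : ∀ (a : ℤ) (n : ℕ), 1 ≤ n →
      |Real.log ‖z₁ * U z₁ b a n‖ - Real.log ‖z₀ * U z₀ b a n‖| ≤
        (2 / 9) * Real.log ‖z₀ * U z₀ b a n‖ := by
    intro a n hn
    exact harnack (f := fun z => z * U z b a n) hR
      (differentiable_id.mul (U_differentiable b a n)).differentiableOn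
      (fun z hz => hge z hz a n hn) hz₁d
  -- the reversed sequence
  have hb' : IsSign (fun n : ℤ => b (-n - 1)) := fun n => hb _
  -- choose T
  set c1 := Real.log (‖z₁‖ * (‖z₁‖ + 1)) with hc1
  set K := (11 / 9) * Real.log 4 + (11 / 7) * |c1| - Real.log (‖z₁‖ * ε) with hK
  set T := max (max 2 (1 / ε + 1)) (Real.exp ((7 / 3) * (K + 1))) with hT
  have hT2 : 2 ≤ T := (le_max_left _ _).trans (le_max_left _ _)
  have hTε : 1 / ε < T := lt_of_lt_of_le (by linarith) ((le_max_right _ _).trans (le_max_left _ _))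
  have hTe : Real.exp ((7 / 3) * (K + 1)) ≤ T := le_max_right _ _
  have hTε' : 1 < ε * T := by
    rw [div_lt_iff₀ hε] at hTε
    linarith
  have hT1 : 1 < T := by linarith
  have hT0 : 0 < T := by linarith
  obtain ⟨M, hM1, hMT, hMT'⟩ := balanced hz₁ hb hT1
  obtain ⟨N, hN1, hNT, hNT'⟩ := balanced hz₁ hb' hT1
  rw [← (U_rev z₁ b N).1] at hNT hNT'
  -- Green function bound at z₁
  have hgreen := green hb hlow hN1 hM1
  set W₁ := U z₁ b (-N) (N + M)
  set L₁ := U z₁ b (-N) N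
  set R₁ := U z₁ b 0 M
  have hL1 : 0 < ‖L₁‖ := by linarith
  have hR1 : 0 < ‖R₁‖ := by linarith
  have hW : ε * (‖L₁‖ * ‖R₁‖) ≤ ‖W₁‖ := by
    rcases le_max_iff.mp hgreen with h | h
    · exact h
    · exfalso
      rcases le_max_iff.mp h with h | h
      · have : ‖L₁‖ < ε * (‖L₁‖ * ‖R₁‖) := by
          have : 1 < ε * ‖R₁‖ := lt_of_lt_of_le hTε' (by gcongr)
          nlinarith
        linarith
      · have : ‖R₁‖ < ε * (‖L₁‖ * ‖R₁‖) := by
          have : 1 < ε * ‖L₁‖ := lt_of_lt_of_le hTε' (by gcongr)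
          nlinarith
        linarith
  have hW' : ε * (T * T) ≤ ‖W₁‖ := le_trans (by gcongr) hW
  -- Poisson bound at z₀
  have hpois := poisson_norm hb hx' hx1 hx0 N M
  -- logs
  have hw := abs_le.mp (hharn (-N) (N + M) (by omega))
  have hl := abs_le.mp (hharn (-N) N hN1)
  have hr := abs_le.mp (hharn 0 M hM1)
  set W₀ := U z₀ b (-N) (N + M)
  set L₀ := U z₀ b (-N) N
  set R₀ := U z₀ b 0 M
  set w₁ := Real.log ‖z₁ * W₁‖ with hw₁
  set w₀ := Real.log ‖z₀ * W₀‖ with hw₀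
  set l₁ := Real.log ‖z₁ * L₁‖ with hl₁
  set l₀ := Real.log ‖z₀ * L₀‖ with hl₀
  set r₁ := Real.log ‖z₁ * R₁‖ with hr₁
  set r₀ := Real.log ‖z₀ * R₀‖ with hr₀
  have h1 : Real.log (‖z₁‖ * ε) + 2 * Real.log T ≤ w₁ := by
    have : Real.log (‖z₁‖ * ε) + 2 * Real.log T = Real.log ((‖z₁‖ * ε) * (T * T)) := by
      rw [Real.log_mul (x := ‖z₁‖ * ε) (y := T * T) (by positivity) (by positivity),
        Real.log_mul (x := T) (y := T) hT0.ne' hT0.ne']
      ring
    rw [this, hw₁]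
    apply Real.log_le_log (by positivity)
    rw [norm_mul, mul_assoc]
    gcongr
  have h2 : l₁ ≤ |c1| + Real.log T := by
    have : l₁ ≤ c1 + Real.log T := by
      rw [hc1, ← Real.log_mul (by positivity) hT0.ne', hl₁]
      apply Real.log_le_log
      · rw [norm_mul]; positivity
      · rw [norm_mul, mul_assoc]
        gcongr
    linarith [le_abs_self c1]
  have h3 : r₁ ≤ |c1| + Real.log T := by
    have : r₁ ≤ c1 + Real.log T := by
      rw [hc1, ← Real.log_mul (by positivity) hT0.ne', hr₁]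
      apply Real.log_le_log
      · rw [norm_mul]; positivity
      · rw [norm_mul, mul_assoc]
        gcongr
    linarith [le_abs_self c1]
  have hge0 : ∀ (a : ℤ) (n : ℕ), 1 ≤ n → 1 ≤ ‖z₀ * U z₀ b a n‖ := hge z₀ hz₀R
  have h4 : w₀ ≤ Real.log 4 + max l₀ r₀ := by
    have e1 : ‖z₀ * W₀‖ ≤ 4 * max ‖z₀ * L₀‖ ‖z₀ * R₀‖ := by
      have e2 : ‖z₀ * W₀‖ ≤ 2 * (‖z₀ * L₀‖ + ‖z₀ * R₀‖) := by
        rw [norm_mul, norm_mul, norm_mul]
        have := mul_le_mul_of_nonneg_left hpois hz₀0.le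
        linarith
      have e3 := le_max_left ‖z₀ * L₀‖ ‖z₀ * R₀‖
      have e4 := le_max_right ‖z₀ * L₀‖ ‖z₀ * R₀‖
      linarith
    have e0 : 1 ≤ ‖z₀ * W₀‖ := hge0 _ _ (by omega)
    have eL : 1 ≤ ‖z₀ * L₀‖ := hge0 _ _ hN1
    have eR : 1 ≤ ‖z₀ * R₀‖ := hge0 _ _ hM1
    rcases le_total ‖z₀ * L₀‖ ‖z₀ * R₀‖ with h | h
    · rw [max_eq_right h] at e1
      calc w₀ ≤ Real.log (4 * ‖z₀ * R₀‖) := Real.log_le_log (by linarith) e1
        _ = Real.log 4 + r₀ := Real.log_mul (by norm_num) (by linarith)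
        _ ≤ _ := by gcongr; exact le_max_right _ _
    · rw [max_eq_left h] at e1
      calc w₀ ≤ Real.log (4 * ‖z₀ * L₀‖) := Real.log_le_log (by linarith) e1
        _ = Real.log 4 + l₀ := Real.log_mul (by norm_num) (by linarith)
        _ ≤ _ := by gcongr; exact le_max_left _ _
  have h5 : l₀ ≤ (9 / 7) * (|c1| + Real.log T) := by linarith [hl.1]
  have h6 : r₀ ≤ (9 / 7) * (|c1| + Real.log T) := by linarith [hr.1]
  have h7 : max l₀ r₀ ≤ (9 / 7) * (|c1| + Real.log T) := max_le h5 h6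
  have h8 : (7 / 3) * (K + 1) ≤ Real.log T := by
    rw [Real.le_log_iff_exp_le hT0]
    exact hTe
  have h9 : w₁ ≤ (11 / 9) * w₀ := by linarith [hw.2]
  linarith

end Pool.Agent.Lib.MP_325c33_an
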