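import Mathlib
import Pool.Agent.Lib.MP_325c33_an.Basic

set_option autoImplicit false

namespace Pool.Agent.Lib.MP_325c33_an

open Set Topology Filter
open scoped ENNReal

/-- unique solvability in `ℓ²` -/
def Good (b : ℤ → ℂ) (z : ℂ) : Prop := ∀ y : ℤ → ℂ, Memℓp y 2 →
  ∃! x : ℤ → ℂ, Memℓp x 2 ∧ ∀ n : ℤ, b (n - 1) * x (n - 1) + x (n + 1) - z * x n = y n

lemma two_toReal : (2 : ℝ≥0∞).toReal = 2 := by norm_num

lemma exists_bound {b : ℤ → ℂ} {z : ℂ} (h : Good b z) : ∃ C : ℝ, 0 ≤ C ∧ ∀ u y : ℤ → ℂ,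
    ∀ (hu : Memℓp u 2) (hy : Memℓp y 2), (∀ n, op b u z n = y n) →
    ‖(⟨u, hu⟩ : lp (fun _ : ℤ => ℂ) 2)‖ ≤ C * ‖(⟨y, hy⟩ : lp (fun _ : ℤ => ℂ) 2)‖ := by
  classical
  have : Fact ((1 : ℝ≥0∞) ≤ 2) := ⟨by norm_num⟩
  let E := lp (fun _ : ℤ => ℂ) 2
  -- solution operator
  let sol : E → E := fun y => ⟨(h y (lp.memℓp y)).choose, (h y (lp.memℓp y)).choose_spec.1.1⟩
  have hsol : ∀ y : E, ∀ n, op b (sol y : ℤ → ℂ) z n = (y : ℤ → ℂ) n := fun y =>
    (h y (lp.memℓp y)).choose_spec.1.2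
  have huniq : ∀ y : E, ∀ u : E, (∀ n, op b (u : ℤ → ℂ) z n = (y : ℤ → ℂ) n) → u = sol y := by
    intro y u hu
    apply lp.ext
    exact (h y (lp.memℓp y)).choose_spec.2 (u : ℤ → ℂ) ⟨lp.memℓp u, hu⟩
  let S : E →ₗ[ℂ] E :=
    { toFun := sol
      map_add' := by
        intro y1 y2
        symm
        apply huniq
        intro n
        have h1 := hsol y1 n
        have h2 := hsol y2 n
        simp only [op] at h1 h2
        change b (n - 1) * ((sol y1 : ℤ → ℂ) (n - 1) + (sol y2 : ℤ → ℂ) (n - 1)) +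
          ((sol y1 : ℤ → ℂ) (n + 1) + (sol y2 : ℤ → ℂ) (n + 1)) -
          z * ((sol y1 : ℤ → ℂ) n + (sol y2 : ℤ → ℂ) n) = (y1 : ℤ → ℂ) n + (y2 : ℤ → ℂ) n
        rw [← h1, ← h2]
        ring
      map_smul' := by
        intro c y
        symm
        apply huniq
        intro n
        have h1 := hsol y n
        simp only [op] at h1
        change b (n - 1) * (c * (sol y : ℤ → ℂ) (n - 1)) + (c * (sol y : ℤ → ℂ) (n + 1)) -
          z * (c * (sol y : ℤ → ℂ) n) = c * (y : ℤ → ℂ) n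
        rw [← h1]
        ring }
  have hcoord : ∀ (w : ℕ → E) (x : E), Tendsto w atTop (𝓝 x) → ∀ n : ℤ,
      Tendsto (fun k => (w k : ℤ → ℂ) n) atTop (𝓝 ((x : ℤ → ℂ) n)) := by
    intro w x hw n
    have h1 := (lp.uniformContinuous_coe (E := fun _ : ℤ => ℂ) (p := 2)).continuous
    exact ((continuous_apply n).comp h1).continuousAt.tendsto.comp hw
  have hcont : Continuous S := by
    apply S.continuous_of_seq_closed_graph
    intro w x y hw hSw
    apply huniq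
    intro n
    have h1 : Tendsto (fun k => op b (S (w k) : ℤ → ℂ) z n) atTop (𝓝 (op b (y : ℤ → ℂ) z n)) := by
      simp only [op]
      exact (((hcoord _ _ hSw (n - 1)).const_mul _).add (hcoord _ _ hSw (n + 1))).sub
        ((hcoord _ _ hSw n).const_mul _)
    have h2 : Tendsto (fun k => op b (S (w k) : ℤ → ℂ) z n) atTop (𝓝 ((x : ℤ → ℂ) n)) := by
      have : (fun k => op b (S (w k) : ℤ → ℂ) z n) = fun k => (w k : ℤ → ℂ) n := by
        ext k
        exact hsol (w k) n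
      rw [this]
      exact hcoord _ _ hw n
    exact tendsto_nhds_unique h1 h2
  let T : E →L[ℂ] E := ⟨S, hcont⟩
  refine ⟨‖T‖, norm_nonneg _, ?_⟩
  intro u y hu hy hop
  have h1 : (⟨u, hu⟩ : E) = T ⟨y, hy⟩ := huniq ⟨y, hy⟩ ⟨u, hu⟩ hop
  rw [h1]
  exact T.le_opNorm _

lemma memlp_of_finite {u : ℤ → ℂ} (h : {i | u i ≠ 0}.Finite) : Memℓp u 2 :=
  (memℓp_zero h).of_exponent_ge (by simp)

lemma not_good_of_bounded {b x : ℤ → ℂ} {z : ℂ} (hb : IsSign b) (hx1 : ∀ n, ‖x n‖ ≤ 1)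
    (hx0 : x 0 ≠ 0) (hx : ∀ n, op b x z n = 0) : ¬ Good b z := by
  classical
  intro hgood
  obtain ⟨C, hC0, hC⟩ := exists_bound hgood
  have hsum : ∀ s : Finset ℤ, ∑ n ∈ s, ‖x n‖ ^ (2 : ℝ≥0∞).toReal ≤ (C * (4 * (‖z‖ + 2))) ^ 2 := by
    intro s
    obtain ⟨N, hN⟩ : ∃ N : ℕ, ∀ n ∈ s, n ∈ Finset.Icc (-(N : ℤ)) N := by
      refine ⟨∑ n ∈ s, n.natAbs, fun n hn => ?_⟩
      have : n.natAbs ≤ ∑ n ∈ s, n.natAbs := Finset.single_le_sum (f := fun n : ℤ => n.natAbs)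
        (fun i _ => Nat.zero_le _) hn
      rw [Finset.mem_Icc]
      omega
    set u : ℤ → ℂ := fun n => if n ∈ Finset.Icc (-(N : ℤ)) N then x n else 0 with hu
    have hufin : {i | u i ≠ 0}.Finite := by
      refine (Finset.Icc (-(N : ℤ)) N).finite_toSet.subset ?_
      intro n hn
      by_contra hcon
      apply hn
      simp only [hu]
      exact if_neg hcon
    set y : ℤ → ℂ := fun n => op b u z n with hy
    have hysupp : ∀ n, n ∉ ({-(N : ℤ) - 1, -(N : ℤ), (N : ℤ), (N : ℤ) + 1} : Finset ℤ) →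
        y n = 0 := by
      intro n hn
      simp only [Finset.mem_insert, Finset.mem_singleton, not_or] at hn
      simp only [hy, op, hu, Finset.mem_Icc]
      by_cases h1 : -(N : ℤ) < n ∧ n < N
      · rw [if_pos (by omega), if_pos (by omega), if_pos (by omega)]
        exact hx n
      · rw [if_neg (by omega), if_neg (by omega), if_neg (by omega)]
        ring
    have hyfin : {i | y i ≠ 0}.Finite := by
      refine (({-(N : ℤ) - 1, -(N : ℤ), (N : ℤ), (N : ℤ) + 1} : Finset ℤ)).finite_toSet.subset ?_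
      intro n hn
      by_contra hcon
      exact hn (hysupp n hcon)
    have hu1 : ∀ n, ‖u n‖ ≤ 1 := by
      intro n
      simp only [hu]
      split_ifs
      · exact hx1 n
      · simp
    have hyb : ∀ n, ‖y n‖ ≤ ‖z‖ + 2 := by
      intro n
      simp only [hy, op]
      calc ‖b (n - 1) * u (n - 1) + u (n + 1) - z * u n‖
          ≤ ‖b (n - 1)‖ * ‖u (n - 1)‖ + ‖u (n + 1)‖ + ‖z‖ * ‖u n‖ := by
            rw [← norm_mul, ← norm_mul]
            exact (norm_sub_le _ _).trans (by gcongr; exact norm_add_le _ _)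
        _ ≤ 1 * 1 + 1 + ‖z‖ * 1 := by
            rw [norm_sign hb]
            have h1 := hu1 (n - 1)
            have h2 := hu1 (n + 1)
            have h3 := hu1 n
            gcongr
        _ = ‖z‖ + 2 := by ring
    have hz2 : 0 ≤ ‖z‖ + 2 := by positivity
    have hylp : Memℓp y 2 := memlp_of_finite hyfin
    have hulp : Memℓp u 2 := memlp_of_finite hufin
    have hynorm : ‖(⟨y, hylp⟩ : lp (fun _ : ℤ => ℂ) 2)‖ ≤ 4 * (‖z‖ + 2) := by
      apply lp.norm_le_of_forall_sum_le (by norm_num) (by positivity)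
      intro t
      rw [two_toReal]
      have h1 : ∑ i ∈ t, ‖y i‖ ^ (2 : ℝ) ≤
          ∑ i ∈ ({-(N : ℤ) - 1, -(N : ℤ), (N : ℤ), (N : ℤ) + 1} : Finset ℤ), ‖y i‖ ^ (2 : ℝ) := by
        calc ∑ i ∈ t, ‖y i‖ ^ (2 : ℝ) = ∑ i ∈ t ∩ ({-(N : ℤ) - 1, -(N : ℤ), (N : ℤ), (N : ℤ) + 1} : Finset ℤ), ‖y i‖ ^ (2 : ℝ) := by
              symm
              apply Finset.sum_subset Finset.inter_subset_left
              intro i hi hi2
              rw [Finset.mem_inter, not_and] at hi2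
              rw [hysupp i (hi2 hi)]
              simp
          _ ≤ _ := by
              apply Finset.sum_le_sum_of_subset_of_nonneg Finset.inter_subset_right
              intro i _ _
              positivity
      have h2 : ∑ i ∈ ({-(N : ℤ) - 1, -(N : ℤ), (N : ℤ), (N : ℤ) + 1} : Finset ℤ), ‖y i‖ ^ (2 : ℝ)
          ≤ ∑ i ∈ ({-(N : ℤ) - 1, -(N : ℤ), (N : ℤ), (N : ℤ) + 1} : Finset ℤ), (‖z‖ + 2) ^ (2 : ℝ) := by
        apply Finset.sum_le_sum
        intro i _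
        have := hyb i
        gcongr
      have h3 : ∑ i ∈ ({-(N : ℤ) - 1, -(N : ℤ), (N : ℤ), (N : ℤ) + 1} : Finset ℤ), (‖z‖ + 2) ^ (2 : ℝ)
          ≤ 4 * (‖z‖ + 2) ^ (2 : ℝ) := by
        rw [Finset.sum_const, nsmul_eq_mul]
        have : (({-(N : ℤ) - 1, -(N : ℤ), (N : ℤ), (N : ℤ) + 1} : Finset ℤ).card : ℝ) ≤ 4 := by
          exact_mod_cast Finset.card_le_four
        gcongr
      refine h1.trans (h2.trans (h3.trans ?_))
      rw [Real.rpow_two, Real.rpow_two]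
      nlinarith [sq_nonneg (‖z‖ + 2)]
    have hmain := hC u y hulp hylp (fun n => rfl)
    have h5 := lp.sum_rpow_le_norm_rpow (p := 2) (by norm_num) (⟨u, hulp⟩ : lp (fun _ : ℤ => ℂ) 2) s
    have h6 : ∑ n ∈ s, ‖x n‖ ^ (2 : ℝ≥0∞).toReal = ∑ n ∈ s, ‖u n‖ ^ (2 : ℝ≥0∞).toReal := by
      apply Finset.sum_congr rfl
      intro n hn
      simp only [hu]
      rw [if_pos (hN n hn)]
    rw [h6]
    refine h5.trans ?_
    rw [two_toReal, Real.rpow_two]
    have h7 : ‖(⟨u, hulp⟩ : lp (fun _ : ℤ => ℂ) 2)‖ ≤ C * (4 * (‖z‖ + 2)) :=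
      hmain.trans (by gcongr)
    gcongr
  have hxlp : Memℓp x 2 := memℓp_gen' hsum
  obtain ⟨w, -, hw⟩ := hgood (fun _ => 0) zero_mem_ℓp'
  have h1 := hw x ⟨hxlp, hx⟩
  have h2 := hw (fun _ => 0) ⟨zero_mem_ℓp', fun n => by simp⟩
  apply hx0
  rw [h1, ← h2]

lemma Bset_not_good {z : ℂ} (hz : z ∈ Bset) : ∃ b : ℤ → ℂ, IsSign b ∧ ¬ Good b z := by
  obtain ⟨b, x, hb, hx1, hx0, hx⟩ := (mem_Bset_iff z).mp hz
  refine ⟨b, hb, not_good_of_bounded hb hx1 ?_ ?_⟩
  · intro h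
    rw [h, norm_zero] at hx0
    norm_num at hx0
  · intro n
    have := hx n
    simpa using this

end Pool.Agent.Lib.MP_325c33_an
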