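import Mathlib
import Pool.Agent.Lib.MP_325c33_an.Spec1

set_option autoImplicit false

namespace Pool.Agent.Lib.MP_325c33_an

open Set Topology Filter
open scoped ENNReal

/-- The uniform lower bound, as a property. -/
def LB (z : ℂ) (ε : ℝ) : Prop := ∀ b x : ℤ → ℂ, IsSign b →
    (∃ C : ℝ, ∀ n, ‖x n‖ ≤ C) → ∀ D : ℝ, (∀ n, ‖op b x z n‖ ≤ D) → ∀ m, ε * ‖x m‖ ≤ D

lemma pow_natAbs_diff {q : ℝ} (hq0 : 0 < q) (hq1 : q < 1) (k : ℤ) :
    |q ^ k.natAbs - q ^ (k + 1).natAbs| ≤ (1 / q - 1) * q ^ (k + 1).natAbs ∧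
    |q ^ (k + 1).natAbs - q ^ k.natAbs| ≤ (1 / q - 1) * q ^ k.natAbs := by
  have h1 : 0 < 1 / q - 1 := by
    rw [sub_pos, lt_div_iff₀ hq0]
    linarith
  have hq' : 1 - q ≤ 1 / q - 1 := by
    have : 0 ≤ (1 - q) ^ 2 / q := by positivity
    have e : 1 / q - 1 - (1 - q) = (1 - q) ^ 2 / q := by
      field_simp
    linarith
  rcases le_or_gt 0 k with h | h
  · have e : (k + 1).natAbs = k.natAbs + 1 := by omega
    rw [e, pow_succ]
    have hp : 0 < q ^ k.natAbs := pow_pos hq0 _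
    set p := q ^ k.natAbs
    constructor
    · rw [abs_of_nonneg (by nlinarith)]
      have : (1 / q - 1) * (p * q) = p - p * q := by
        field_simp
      linarith
    · rw [abs_of_nonpos (by nlinarith)]
      nlinarith
  · have e : k.natAbs = (k + 1).natAbs + 1 := by omega
    rw [e, pow_succ]
    have hp : 0 < q ^ (k + 1).natAbs := pow_pos hq0 _
    set p := q ^ (k + 1).natAbs
    constructor
    · rw [abs_of_nonpos (by nlinarith)]
      nlinarith
    · rw [abs_of_nonneg (by nlinarith)]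
      have : (1 / q - 1) * (p * q) = p - p * q := by
        field_simp
      linarith

/-- Weighted bound. -/
lemma weighted {z : ℂ} {ε : ℝ} (hε : 0 < ε) (hLB : LB z ε) {q : ℝ} (hq0 : 0 < q) (hq1 : q < 1)
    (hq : 2 * (1 / q - 1) ≤ ε / 2) {b x : ℤ → ℂ} (hb : IsSign b) (hx : ∃ C : ℝ, ∀ n, ‖x n‖ ≤ C)
    (m : ℤ) {Y : ℝ} (hY : ∀ n, q ^ (n - m).natAbs * ‖op b x z n‖ ≤ Y) : (ε / 2) * ‖x m‖ ≤ Y := by
  obtain ⟨C, hC⟩ := hx
  set w : ℤ → ℝ := fun n => q ^ (n - m).natAbs with hw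
  have hw0 : ∀ n, 0 < w n := fun n => pow_pos hq0 _
  have hw1 : ∀ n, w n ≤ 1 := fun n => pow_le_one₀ hq0.le hq1.le
  set x' : ℤ → ℂ := fun n => (w n : ℂ) * x n with hx'
  have hnx' : ∀ n, ‖x' n‖ = w n * ‖x n‖ := by
    intro n
    simp only [hx']
    rw [norm_mul, Complex.norm_real, Real.norm_of_nonneg (hw0 n).le]
  have hC0 : 0 ≤ C := (norm_nonneg _).trans (hC 0)
  have hb' : ∀ n, ‖x' n‖ ≤ C := by
    intro n
    rw [hnx']
    have h1 := hC n
    have h2 := hw1 n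
    have h3 := hw0 n
    have h4 := norm_nonneg (x n)
    nlinarith
  have hbdd : BddAbove (range fun k => ‖x' k‖) := ⟨C, by rintro _ ⟨n, rfl⟩; exact hb' n⟩
  set s := ⨆ k, ‖x' k‖ with hs
  have hle : ∀ k, ‖x' k‖ ≤ s := fun k => le_ciSup hbdd k
  have hκ : 0 < 1 / q - 1 := by
    rw [sub_pos, lt_div_iff₀ hq0]
    linarith
  have hop : ∀ n, ‖op b x' z n‖ ≤ Y + 2 * (1 / q - 1) * s := by
    intro n
    have e : op b x' z n = (w n : ℂ) * op b x z n +
        b (n - 1) * (((w (n - 1) - w n : ℝ) : ℂ) * x (n - 1)) +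
        ((w (n + 1) - w n : ℝ) : ℂ) * x (n + 1) := by
      simp only [op, hx']
      push_cast
      ring
    have h1 : |w (n - 1) - w n| ≤ (1 / q - 1) * w (n - 1) := by
      have := (pow_natAbs_diff hq0 hq1 (n - 1 - m)).2
      rw [show n - 1 - m + 1 = n - m by ring] at this
      rw [abs_sub_comm]
      exact this
    have h2 : |w (n + 1) - w n| ≤ (1 / q - 1) * w (n + 1) := by
      have := (pow_natAbs_diff hq0 hq1 (n - m)).1
      rw [show n - m + 1 = n + 1 - m by ring] at this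
      rw [abs_sub_comm]
      exact this
    have h3 : ‖((w (n - 1) - w n : ℝ) : ℂ) * x (n - 1)‖ ≤ (1 / q - 1) * s := by
      rw [norm_mul, Complex.norm_real, Real.norm_eq_abs]
      calc |w (n - 1) - w n| * ‖x (n - 1)‖ ≤ (1 / q - 1) * w (n - 1) * ‖x (n - 1)‖ := by gcongr
        _ = (1 / q - 1) * ‖x' (n - 1)‖ := by rw [hnx']; ring
        _ ≤ _ := by gcongr; exact hle _
    have h4 : ‖((w (n + 1) - w n : ℝ) : ℂ) * x (n + 1)‖ ≤ (1 / q - 1) * s := by
      rw [norm_mul, Complex.norm_real, Real.norm_eq_abs]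
      calc |w (n + 1) - w n| * ‖x (n + 1)‖ ≤ (1 / q - 1) * w (n + 1) * ‖x (n + 1)‖ := by gcongr
        _ = (1 / q - 1) * ‖x' (n + 1)‖ := by rw [hnx']; ring
        _ ≤ _ := by gcongr; exact hle _
    have h5 : ‖(w n : ℂ) * op b x z n‖ ≤ Y := by
      rw [norm_mul, Complex.norm_real, Real.norm_of_nonneg (hw0 n).le]
      exact hY n
    have h6 : ‖b (n - 1) * (((w (n - 1) - w n : ℝ) : ℂ) * x (n - 1))‖ ≤ (1 / q - 1) * s := by
      rw [norm_mul, norm_sign hb, one_mul]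
      exact h3
    rw [e]
    refine (norm_add_le _ _).trans ?_
    have h7 := norm_add_le ((w n : ℂ) * op b x z n)
      (b (n - 1) * (((w (n - 1) - w n : ℝ) : ℂ) * x (n - 1)))
    linarith
  have h1 := hLB b x' hb ⟨C, hb'⟩ _ hop
  have h2 : s ≤ (Y + 2 * (1 / q - 1) * s) / ε := by
    apply ciSup_le
    intro k
    rw [le_div_iff₀ hε]
    linarith [h1 k]
  rw [le_div_iff₀ hε] at h2
  have hs0 : 0 ≤ s := (norm_nonneg _).trans (hle 0)
  have h3 : (ε / 2) * s ≤ Y := by nlinarith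
  have h4 : ‖x m‖ ≤ s := by
    have := hle m
    rw [hnx'] at this
    simpa [hw] using this
  nlinarith

/-- Bounded solutions of the inhomogeneous equation, by periodic approximation. -/
lemma exists_bounded_sol {z : ℂ} {ε : ℝ} (hε : 0 < ε) (hLB : LB z ε) {b y : ℤ → ℂ}
    (hb : IsSign b) {Y : ℝ} (hY : ∀ n, ‖y n‖ ≤ Y) :
    ∃ x : ℤ → ℂ, (∀ n, ‖x n‖ ≤ Y / ε) ∧ ∀ n, op b x z n = y n := by
  have hY0 : 0 ≤ Y := (norm_nonneg _).trans (hY 0)
  let F : ℕ → Set (ℤ → ℂ) := fun N => {x | (∀ n, ‖x n‖ ≤ Y / ε) ∧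
    ∀ n : ℤ, n.natAbs + 1 ≤ N → op b x z n = y n}
  have hdec : ∀ N, F (N + 1) ⊆ F N := fun N x hx => ⟨hx.1, fun n hn => hx.2 n (by omega)⟩
  have hclosed : ∀ N, IsClosed (F N) := by
    intro N
    have e : F N = (⋂ n : ℤ, {x | ‖x n‖ ≤ Y / ε}) ∩
        ⋂ n : ℤ, ⋂ _ : n.natAbs + 1 ≤ N, {x | op b x z n = y n} := by
      ext x
      simp [F]
    rw [e]
    refine IsClosed.inter (isClosed_iInter fun n => isClosed_le (by fun_prop) continuous_const)
      (isClosed_iInter fun n => isClosed_iInter fun _ => isClosed_eq ?_ continuous_const)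
    unfold op
    fun_prop
  have hcomp : IsCompact (F 0) := by
    have h1 : IsCompact (Set.pi univ fun _ : ℤ => Metric.closedBall (0 : ℂ) (Y / ε)) :=
      isCompact_univ_pi fun _ => isCompact_closedBall _ _
    refine h1.of_isClosed_subset (hclosed 0) ?_
    intro x hx n _
    simpa using hx.1 n
  have hne : ∀ N, (F N).Nonempty := by
    intro N
    let P : ℕ := 2 * N + 1
    have : NeZero P := ⟨by omega⟩
    let b' : ZMod P → ℂ := fun i => b i.valMinAbs
    let y' : ZMod P → ℂ := fun i => y i.valMinAbs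
    let L : (ZMod P → ℂ) →ₗ[ℂ] (ZMod P → ℂ) :=
      { toFun := fun x i => b' (i - 1) * x (i - 1) + x (i + 1) - z * x i
        map_add' := by
          intro x1 x2
          ext i
          simp only [Pi.add_apply]
          ring
        map_smul' := by
          intro c x
          ext i
          simp only [Pi.smul_apply, smul_eq_mul, RingHom.id_apply]
          ring }
    have hL : ∀ x i, L x i = b' (i - 1) * x (i - 1) + x (i + 1) - z * x i := fun x i => rfl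
    have hB : IsSign (fun n : ℤ => b' (n : ZMod P)) := fun n => hb _
    have hopL : ∀ (x : ZMod P → ℂ) (n : ℤ),
        op (fun n : ℤ => b' (n : ZMod P)) (fun n : ℤ => x (n : ZMod P)) z n = L x (n : ZMod P) := by
      intro x n
      simp only [op, hL]
      push_cast
      rfl
    have hbd : ∀ x : ZMod P → ℂ, ∃ C : ℝ, ∀ n : ℤ, ‖x (n : ZMod P)‖ ≤ C := by
      intro x
      refine ⟨∑ i, ‖x i‖, fun n => ?_⟩
      exact Finset.single_le_sum (f := fun i => ‖x i‖) (fun i _ => norm_nonneg _)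
        (Finset.mem_univ _)
    have hinj : Function.Injective L := by
      rw [← LinearMap.ker_eq_bot, LinearMap.ker_eq_bot']
      intro x hx
      have h1 := hLB _ (fun n : ℤ => x (n : ZMod P)) hB (hbd x) 0 (fun n => by
        rw [hopL, hx]
        simp)
      ext i
      have h2 := h1 i.valMinAbs
      simp only [ZMod.coe_valMinAbs] at h2
      have h3 : ‖x i‖ ≤ 0 := by
        by_contra hcon
        push Not at hcon
        nlinarith
      simpa using h3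
    have hsurj : Function.Surjective L := LinearMap.injective_iff_surjective.mp hinj
    obtain ⟨x, hx⟩ := hsurj y'
    refine ⟨fun n : ℤ => x (n : ZMod P), ?_, ?_⟩
    · intro m
      have h1 := hLB _ (fun n : ℤ => x (n : ZMod P)) hB (hbd x) Y (fun n => by
        rw [hopL, hx]
        exact hY _) m
      rw [le_div_iff₀ hε]
      linarith
    · intro n hn
      have h1 := hopL x n
      rw [hx] at h1
      have e1 : ((n : ZMod P)).valMinAbs = n := by
        rw [ZMod.valMinAbs_spec]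
        refine ⟨rfl, ?_⟩
        rw [Set.mem_Ioc]
        constructor <;> push_cast [P] <;> omega
      have e2 : (((n - 1 : ℤ) : ZMod P)).valMinAbs = n - 1 := by
        rw [ZMod.valMinAbs_spec]
        refine ⟨rfl, ?_⟩
        rw [Set.mem_Ioc]
        constructor <;> push_cast [P] <;> omega
      simp only [op, y', b'] at h1 ⊢
      rw [e1, e2] at h1
      exact h1
  obtain ⟨x, hx⟩ := IsCompact.nonempty_iInter_of_sequence_nonempty_isCompact_isClosed F hdec hne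
    hcomp hclosed
  rw [Set.mem_iInter] at hx
  refine ⟨x, (hx 0).1, fun n => (hx (n.natAbs + 1)).2 n le_rfl⟩

lemma summable_geo {q : ℝ} (hq0 : 0 < q) (hq1 : q < 1) :
    Summable fun k : ℤ => (q ^ k.natAbs) ^ 2 := by
  have h1 : Summable fun k : ℕ => (q ^ 2) ^ k :=
    summable_geometric_of_lt_one (by positivity) (by nlinarith)
  apply Summable.of_nat_of_neg
  · refine h1.congr fun k => ?_
    rw [← pow_mul, ← pow_mul, mul_comm]
    simp
  · refine h1.congr fun k => ?_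
    rw [← pow_mul, ← pow_mul, mul_comm]
    simp

lemma bounded_of_memlp {x : ℤ → ℂ} (hx : Memℓp x 2) : ∃ C : ℝ, ∀ n, ‖x n‖ ≤ C := by
  have h1 : Memℓp x ∞ := hx.of_exponent_ge le_top
  obtain ⟨C, hC⟩ := h1.bddAbove
  exact ⟨C, fun n => hC ⟨n, rfl⟩⟩

lemma memlp_of_weighted {x y : ℤ → ℂ} {q K : ℝ} (hq0 : 0 < q) (hq1 : q < 1) (hK : 0 ≤ K)
    (hy : Memℓp y 2)
    (h : ∀ m : ℤ, ∀ Y : ℝ, (∀ n : ℤ, q ^ (n - m).natAbs * ‖y n‖ ≤ Y) → ‖x m‖ ≤ K * Y) :
    Memℓp x 2 := by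
  have hysum : Summable fun n => ‖y n‖ ^ 2 := by
    have := hy.summable (by norm_num)
    simpa using this
  have hprod : Summable fun p : ℤ × ℤ => ‖y p.1‖ ^ 2 * (q ^ (p.1 - p.2).natAbs) ^ 2 := by
    have h1 : Summable fun p : ℤ × ℤ => ‖y p.1‖ ^ 2 * (q ^ p.2.natAbs) ^ 2 :=
      hysum.mul_of_nonneg (summable_geo hq0 hq1) (fun n => by positivity) (fun n => by positivity)
    let e : ℤ × ℤ ≃ ℤ × ℤ :=
      { toFun := fun p => (p.1, p.1 - p.2)
        invFun := fun p => (p.1, p.1 - p.2)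
        left_inv := fun p => by simp
        right_inv := fun p => by simp }
    exact (e.summable_iff (f := fun p : ℤ × ℤ => ‖y p.1‖ ^ 2 * (q ^ p.2.natAbs) ^ 2)).mpr h1
  have hprod' : Summable fun p : ℤ × ℤ => ‖y p.2‖ ^ 2 * (q ^ (p.2 - p.1).natAbs) ^ 2 :=
    (Equiv.prodComm ℤ ℤ).summable_iff.mpr hprod
  have hrow : ∀ m : ℤ, Summable fun n => ‖y n‖ ^ 2 * (q ^ (n - m).natAbs) ^ 2 := fun m =>
    hprod'.prod_factor m
  have hcol : Summable fun m : ℤ => ∑' n, ‖y n‖ ^ 2 * (q ^ (n - m).natAbs) ^ 2 := hprod'.prod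
  have hx2 : ∀ m, ‖x m‖ ^ 2 ≤ K ^ 2 * ∑' n, ‖y n‖ ^ 2 * (q ^ (n - m).natAbs) ^ 2 := by
    intro m
    have hSm0 : 0 ≤ ∑' n, ‖y n‖ ^ 2 * (q ^ (n - m).natAbs) ^ 2 :=
      tsum_nonneg fun n => by positivity
    have hSm1 : ∀ n, ‖y n‖ ^ 2 * (q ^ (n - m).natAbs) ^ 2 ≤
        ∑' n, ‖y n‖ ^ 2 * (q ^ (n - m).natAbs) ^ 2 :=
      fun n => (hrow m).le_tsum n (fun j _ => by positivity)
    generalize ∑' n, ‖y n‖ ^ 2 * (q ^ (n - m).natAbs) ^ 2 = Sm at hSm0 hSm1 ⊢
    have h1 : ∀ n, q ^ (n - m).natAbs * ‖y n‖ ≤ Real.sqrt Sm := by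
      intro n
      apply Real.le_sqrt_of_sq_le
      calc (q ^ (n - m).natAbs * ‖y n‖) ^ 2 = ‖y n‖ ^ 2 * (q ^ (n - m).natAbs) ^ 2 := by ring
        _ ≤ Sm := hSm1 n
    have h3 := h m _ h1
    have h5 : ‖x m‖ ^ 2 ≤ (K * Real.sqrt Sm) ^ 2 :=
      pow_le_pow_left₀ (norm_nonneg _) h3 2
    rw [mul_pow, Real.sq_sqrt hSm0] at h5
    exact h5
  apply memℓp_gen
  have h1 : Summable fun m => ‖x m‖ ^ 2 :=
    Summable.of_nonneg_of_le (fun m => by positivity) hx2 (hcol.mul_left _)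
  simpa using h1

lemma unique_of_LB {z : ℂ} {ε : ℝ} (hε : 0 < ε) (hLB : LB z ε) {b : ℤ → ℂ} (hb : IsSign b)
    {x x2 y : ℤ → ℂ} (hx : ∃ C : ℝ, ∀ n, ‖x n‖ ≤ C) (hx2 : ∃ C : ℝ, ∀ n, ‖x2 n‖ ≤ C)
    (h : ∀ n, op b x z n = y n) (h2 : ∀ n, op b x2 z n = y n) : x2 = x := by
  obtain ⟨C, hC⟩ := hx
  obtain ⟨C1, hC1⟩ := hx2
  have hd := hLB b (fun n => x2 n - x n) hb ⟨C1 + C, fun n =>
    (norm_sub_le _ _).trans (add_le_add (hC1 n) (hC n))⟩ 0 (fun n => by
      have h1 := h n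
      have h2 := h2 n
      simp only [op] at h1 h2 ⊢
      rw [show b (n - 1) * (x2 (n - 1) - x (n - 1)) + (x2 (n + 1) - x (n + 1)) -
        z * (x2 n - x n) = 0 by linear_combination h2 - h1]
      rw [norm_zero])
  ext m
  have h3 := hd m
  have h4 : ‖x2 m - x m‖ ≤ 0 := by
    by_contra hcon
    push Not at hcon
    have := mul_pos hε hcon
    linarith
  exact sub_eq_zero.mp (norm_le_zero_iff.mp h4)

lemma good_of_notMem {z : ℂ} (hz : z ∉ Bset) {b : ℤ → ℂ} (hb : IsSign b) : Good b z := by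
  obtain ⟨ε, hε, hLB⟩ := lower_bound hz
  change LB z ε at hLB
  -- choose q
  obtain ⟨q, hq0, hq1, hq⟩ : ∃ q : ℝ, 0 < q ∧ q < 1 ∧ 2 * (1 / q - 1) ≤ ε / 2 := by
    refine ⟨1 / (1 + ε / 4), by positivity, ?_, ?_⟩
    · rw [div_lt_one (by positivity)]
      linarith
    · rw [one_div_one_div]
      linarith
  intro y hy
  obtain ⟨Y, hY⟩ := bounded_of_memlp hy
  obtain ⟨x, hxb, hx⟩ := exists_bounded_sol hε hLB hb hY
  have hxlp : Memℓp x 2 := by
    refine memlp_of_weighted (K := 2 / ε) hq0 hq1 (by positivity) hy fun m Y' hY' => ?_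
    have h2 := weighted hε hLB hq0 hq1 hq hb ⟨Y / ε, hxb⟩ m (Y := Y') (fun n => by
      rw [hx n]
      exact hY' n)
    rw [div_mul_eq_mul_div, le_div_iff₀ hε]
    linarith
  refine ⟨x, ⟨hxlp, fun n => hx n⟩, ?_⟩
  rintro x2 ⟨hx2lp, hx2s⟩
  exact unique_of_LB hε hLB hb ⟨Y / ε, hxb⟩ (bounded_of_memlp hx2lp) hx hx2s

lemma spec_eq : {z : ℂ | ∃ b : ℤ → ℂ, (∀ n : ℤ, b n = 1 ∨ b n = -1) ∧ ¬ Good b z} = Bset := by
  ext z
  constructor
  · rintro ⟨b, hb, hng⟩
    by_contra hz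
    exact hng (good_of_notMem hz hb)
  · intro hz
    exact Bset_not_good hz

end Pool.Agent.Lib.MP_325c33_an
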